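import Pool.Agent.Helper93.Strand

set_option autoImplicit false

open Topology

namespace Pool.Agent.Helper93

/-- the closed star of radius one -/
def Star (H : Type) [Fintype H] : Set (H → ℝ) :=
  {w | (∀ h, 0 ≤ w h) ∧ (∀ h h', h ≠ h' → w h = 0 ∨ w h' = 0) ∧ ∑ h, w h ≤ 1}

section star

variable {H : Type} [Fintype H]

lemma Star.mem_iff {w : H → ℝ} : w ∈ Star H ↔
    (∀ h, 0 ≤ w h) ∧ (∀ h h', h ≠ h' → w h = 0 ∨ w h' = 0) ∧ ∑ h, w h ≤ 1 := Iff.rfl

lemma Star.zero_mem : (0 : H → ℝ) ∈ Star H := by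
  rw [Star.mem_iff]
  simp

lemma Star.smul_mem {w : H → ℝ} (hw : w ∈ Star H) {s : ℝ} (hs : 0 ≤ s) (hs' : s * ∑ h, w h ≤ 1) :
    s • w ∈ Star H := by
  obtain ⟨h1, h2, h3⟩ := hw
  refine ⟨fun h => mul_nonneg hs (h1 h), fun h h' hne => ?_, ?_⟩
  · rcases h2 h h' hne with h4 | h4
    · left; simp [h4]
    · right; simp [h4]
  · simpa [Finset.mul_sum] using hs'

lemma Star.sum_smul (w : H → ℝ) (s : ℝ) : ∑ h, (s • w) h = s * ∑ h, w h := by
  simp [Finset.mul_sum]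

lemma Star.smul_mem' {w : H → ℝ} (hw : w ∈ Star H) {s : ℝ} (hs : 0 ≤ s) (hs' : s ≤ 1) :
    s • w ∈ Star H := by
  refine Star.smul_mem hw hs ?_
  have h0 : 0 ≤ ∑ h, w h := Finset.sum_nonneg fun h _ => hw.1 h
  calc s * ∑ h, w h ≤ 1 * 1 := mul_le_mul hs' hw.2.2 h0 zero_le_one
    _ = 1 := one_mul 1

end star

/-- A chart at a point whose neighbourhood is a star. -/
structure StarChart (X H : Type) [TopologicalSpace X] [Fintype H] where
  r : C(X, ℝ)
  u : C(X, H → ℝ)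
  L : (H → ℝ) → X
  contL : ContinuousOn L (Star H)
  u_mem : ∀ p, r p ≤ 1 → u p ∈ Star H
  u_sum : ∀ p, r p ≤ 1 → ∑ h, u p h = r p
  L_u : ∀ p, r p ≤ 1 → L (u p) = p
  u_L : ∀ w ∈ Star H, u (L w) = w
  r_L : ∀ w ∈ Star H, r (L w) = ∑ h, w h

/-- The local motion at the centre of a star. -/
structure LocalModel (H : Type) [Fintype H] where
  mx : C(unitInterval × (H → ℝ), H → ℝ)
  mz : C(H → ℝ, H → ℝ)
  mx_mem : ∀ t, ∀ w ∈ Star H, mx (t, w) ∈ Star H
  mx_zero : ∀ w ∈ Star H, mx (0, w) = w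
  mx_bd : ∀ t, ∀ w ∈ Star H, ∑ h, w h = 1 → mx (t, w) = w
  mz_mem : ∀ w ∈ Star H, mz w ∈ Star H
  mz_bd : ∀ w ∈ Star H, ∑ h, w h = 1 → mz w = 0
  ne : ∀ w ∈ Star H, mx (1, w) ≠ mz w

/-- scales -/
abbrev Scale := Set.Ioc (0 : ℝ) 1

section

variable {X H : Type} [TopologicalSpace X] [Fintype H] (c : StarChart X H) (m : LocalModel H)

namespace StarChart

lemma r_nonneg' (p : X) (h : c.r p ≤ 1) : 0 ≤ c.r p := by
  rw [← c.u_sum p h]
  exact Finset.sum_nonneg fun h' _ => (c.u_mem p h).1 h'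

lemma eq_of_r_zero {p q : X} (hp : c.r p ≤ 0) (hq : c.r q ≤ 0) : p = q := by
  have key : ∀ p, c.r p ≤ 0 → p = c.L 0 := by
    intro p hp
    have h1 : c.r p ≤ 1 := hp.trans zero_le_one
    have h2 := c.u_sum p h1
    have h3 := c.u_mem p h1
    have h4 : c.u p = 0 := by
      funext h
      have h5 : ∑ h, c.u p h = 0 := le_antisymm (h2 ▸ hp) (Finset.sum_nonneg fun h _ => h3.1 h)
      exact (Finset.sum_eq_zero_iff_of_nonneg (fun h _ => h3.1 h)).1 h5 h (Finset.mem_univ h)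
    rw [← c.L_u p h1, h4]
  rw [key p hp, key q hq]

lemma inv_smul_mem (s : Scale) (p : X) (h : c.r p ≤ s.1) : (s.1)⁻¹ • c.u p ∈ Star H := by
  have h1 : c.r p ≤ 1 := h.trans s.2.2
  have hs : 0 < s.1 := s.2.1
  refine Star.smul_mem (c.u_mem p h1) (inv_nonneg.2 hs.le) ?_
  rw [c.u_sum p h1, inv_mul_le_iff₀ hs, mul_one]
  exact h

lemma inv_smul_sum (s : Scale) (p : X) (h : c.r p ≤ s.1) :
    ∑ h', ((s.1)⁻¹ • c.u p) h' = (s.1)⁻¹ * c.r p := by
  rw [Star.sum_smul, c.u_sum p (h.trans s.2.2)]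

/-- the moved point -/
noncomputable def A (q : unitInterval × Scale × X) : X :=
  if c.r q.2.2 ≤ q.2.1.1 then c.L (q.2.1.1 • m.mx (q.1, (q.2.1.1)⁻¹ • c.u q.2.2)) else q.2.2

/-- the coordinates of the extra point -/
noncomputable def zeta (q : Scale × X) : H → ℝ :=
  if c.r q.2 ≤ q.1.1 then q.1.1 • m.mz ((q.1.1)⁻¹ • c.u q.2) else 0

lemma scaled_mem (s : Scale) {w : H → ℝ} (hw : w ∈ Star H) : s.1 • w ∈ Star H :=
  Star.smul_mem' hw s.2.1.le s.2.2

lemma continuous_inv_scale : Continuous (fun s : Scale => (s.1)⁻¹) :=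
  Continuous.inv₀ continuous_subtype_val fun s => s.2.1.ne'

lemma continuous_A : Continuous (c.A m) := by
  have hinv := continuous_inv_scale
  unfold A
  refine continuous_if_le ?_ ?_ ?_ ?_ ?_
  · fun_prop
  · fun_prop
  · refine c.contL.comp (Continuous.continuousOn ?_) ?_
    · have : Continuous (fun q : unitInterval × Scale × X => (q.2.1.1)⁻¹) :=
        hinv.comp (by fun_prop)
      fun_prop
    · intro q hq
      exact scaled_mem _ (m.mx_mem _ _ (c.inv_smul_mem _ _ hq))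
  · fun_prop
  · intro q hq
    have h1 := c.inv_smul_mem q.2.1 q.2.2 hq.le
    rw [m.mx_bd _ _ h1]
    · rw [smul_smul, mul_inv_cancel₀ q.2.1.2.1.ne', one_smul, c.L_u _ (hq.le.trans q.2.1.2.2)]
    · rw [c.inv_smul_sum _ _ hq.le, hq, inv_mul_cancel₀ q.2.1.2.1.ne']

lemma continuous_zeta : Continuous (c.zeta m) := by
  have hinv := continuous_inv_scale
  unfold zeta
  refine continuous_if_le ?_ ?_ ?_ ?_ ?_
  · fun_prop
  · fun_prop
  · have : Continuous (fun q : Scale × X => (q.1.1)⁻¹) := hinv.comp (by fun_prop)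
    fun_prop
  · fun_prop
  · intro q hq
    have h1 := c.inv_smul_mem q.1 q.2 hq.le
    rw [m.mz_bd _ h1]
    · simp
    · rw [c.inv_smul_sum _ _ hq.le, hq, inv_mul_cancel₀ q.1.2.1.ne']

lemma zeta_mem (s : Scale) (p : X) : c.zeta m (s, p) ∈ Star H := by
  unfold zeta
  split_ifs with h
  · exact scaled_mem _ (m.mz_mem _ (c.inv_smul_mem _ _ h))
  · exact Star.zero_mem

lemma zeta_sum (s : Scale) (p : X) : ∑ h, c.zeta m (s, p) h ≤ s.1 := by
  unfold zeta
  split_ifs with h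
  · rw [Star.sum_smul]
    have := (m.mz_mem _ (c.inv_smul_mem _ _ h)).2.2
    have hs := s.2.1
    calc s.1 * _ ≤ s.1 * 1 := mul_le_mul_of_nonneg_left this hs.le
      _ = s.1 := mul_one _
  · simpa using s.2.1.le

lemma zeta_of_lt (s : Scale) (p : X) (h : s.1 < c.r p) : c.zeta m (s, p) = 0 := by
  unfold zeta
  rw [if_neg (not_le.2 h)]

lemma A_of_lt (t : unitInterval) (s : Scale) (p : X) (h : s.1 < c.r p) : c.A m (t, s, p) = p := by
  unfold A
  rw [if_neg (not_le.2 h)]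

lemma r_A_le (t : unitInterval) (s : Scale) (p : X) (h : c.r p ≤ s.1) :
    c.r (c.A m (t, s, p)) ≤ s.1 := by
  unfold A
  rw [if_pos h]
  have h1 := m.mx_mem t _ (c.inv_smul_mem s p h)
  rw [c.r_L _ (scaled_mem s h1), Star.sum_smul]
  calc s.1 * _ ≤ s.1 * 1 := mul_le_mul_of_nonneg_left h1.2.2 s.2.1.le
    _ = s.1 := mul_one _

lemma A_zero (s : Scale) (p : X) : c.A m (0, s, p) = p := by
  unfold A
  split_ifs with h
  · change c.L (s.1 • m.mx (0, (s.1)⁻¹ • c.u p)) = p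
    rw [m.mx_zero _ (c.inv_smul_mem s p h), smul_smul, mul_inv_cancel₀ s.2.1.ne', one_smul,
      c.L_u _ (h.trans s.2.2)]
  · rfl

/-- a scale is valid when no two points are within it -/
def Valid {κ : Type} (s : Scale) (x : Conf κ X) : Prop :=
  ∀ i j, i ≠ j → s.1 < max (c.r (x.1 i)) (c.r (x.1 j))

lemma A_inj {κ : Type} (t : unitInterval) {s : Scale} {x : Conf κ X} (hv : c.Valid s x) :
    Function.Injective (fun i => c.A m (t, s, x.1 i)) := by
  intro i j hij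
  by_contra hne
  have h1 := hv i j hne
  simp only at hij
  by_cases hi : c.r (x.1 i) ≤ s.1
  · have hj : s.1 < c.r (x.1 j) := by
      rcases lt_max_iff.1 h1 with h | h
      · exact absurd hi (not_le.2 h)
      · exact h
    have h2 := c.r_A_le m t s _ hi
    rw [hij, c.A_of_lt m t s _ hj] at h2
    exact absurd h2 (not_le.2 hj)
  · rw [not_le] at hi
    by_cases hj : c.r (x.1 j) ≤ s.1
    · have h2 := c.r_A_le m t s _ hj
      rw [← hij, c.A_of_lt m t s _ hi] at h2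
      exact absurd h2 (not_le.2 hi)
    · rw [not_le] at hj
      rw [c.A_of_lt m t s _ hj, c.A_of_lt m t s _ hi] at hij
      exact hne (x.2 hij)

/-- coordinates of the extra point for a whole configuration with weights -/
noncomputable def Zh {κ : Type} [Fintype κ] (w : κ → ℝ) (s : Scale) (x : Conf κ X) : H → ℝ :=
  ∑ k, w k • c.zeta m (s, x.1 k)

lemma Zh_of_le {κ : Type} [Fintype κ] (w : κ → ℝ) {s : Scale} {x : Conf κ X}
    (hv : c.Valid s x) (k : κ) (hk : c.r (x.1 k) ≤ s.1) :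
    c.Zh m w s x = w k • c.zeta m (s, x.1 k) := by
  classical
  unfold Zh
  refine Finset.sum_eq_single k (fun j _ hj => ?_) (fun h => absurd (Finset.mem_univ k) h)
  have h1 := hv j k hj
  have h2 : s.1 < c.r (x.1 j) := by
    rcases lt_max_iff.1 h1 with h | h
    · exact h
    · exact absurd hk (not_le.2 h)
  rw [c.zeta_of_lt m s _ h2, smul_zero]

lemma Zh_props {κ : Type} [Fintype κ] {w : κ → ℝ} (hw : ∀ k, 0 ≤ w k ∧ w k ≤ 1)
    {s : Scale} {x : Conf κ X} (hv : c.Valid s x) :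
    c.Zh m w s x ∈ Star H ∧ ∑ h, c.Zh m w s x h ≤ s.1 := by
  by_cases h : ∃ k, c.r (x.1 k) ≤ s.1
  · obtain ⟨k, hk⟩ := h
    rw [c.Zh_of_le m w hv k hk]
    refine ⟨Star.smul_mem' (c.zeta_mem m s _) (hw k).1 (hw k).2, ?_⟩
    rw [Star.sum_smul]
    have h0 : 0 ≤ ∑ h, c.zeta m (s, x.1 k) h :=
      Finset.sum_nonneg fun h _ => (c.zeta_mem m s _).1 h
    calc w k * _ ≤ 1 * ∑ h, c.zeta m (s, x.1 k) h := mul_le_mul_of_nonneg_right (hw k).2 h0
      _ ≤ s.1 := by rw [one_mul]; exact c.zeta_sum m s _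
  · have h0 : c.Zh m w s x = 0 := by
      unfold Zh
      refine Finset.sum_eq_zero fun k _ => ?_
      rw [c.zeta_of_lt m s _ (not_le.1 fun h' => h ⟨k, h'⟩), smul_zero]
    rw [h0]
    exact ⟨Star.zero_mem, by simpa using s.2.1.le⟩

lemma extra_ne {κ : Type} [Fintype κ] {w : κ → ℝ} (hw : ∀ k, 0 ≤ w k ∧ w k ≤ 1)
    {s : Scale} {x : Conf κ X} (hv : c.Valid s x) (k : κ) (hk : w k = 1) :
    c.L (c.Zh m w s x) ≠ c.A m (1, s, x.1 k) := by
  intro he
  obtain ⟨h1, h2⟩ := c.Zh_props m hw hv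
  by_cases h : c.r (x.1 k) ≤ s.1
  · rw [c.Zh_of_le m w hv k h, hk, one_smul] at he
    have h3 := congrArg c.u he
    rw [c.u_L _ (c.zeta_mem m s _)] at h3
    unfold A zeta at h3
    simp only [if_pos h] at h3
    have h4 := m.mx_mem 1 _ (c.inv_smul_mem s _ h)
    rw [c.u_L _ (scaled_mem s h4)] at h3
    have h5 := smul_right_injective (H → ℝ) s.2.1.ne' h3
    exact m.ne _ (c.inv_smul_mem s _ h) h5.symm
  · rw [not_le] at h
    rw [c.A_of_lt m 1 s _ h] at he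
    have h3 := c.r_L _ h1
    rw [he] at h3
    rw [h3] at h
    exact absurd h2 (not_le.2 h)

end StarChart

end

end Pool.Agent.Helper93
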