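import Pool.Agent.Helper93.Chart

set_option autoImplicit false

open Topology

namespace Pool.Agent.Helper93

namespace StarChart

section

variable {X H : Type} [TopologicalSpace X] [Fintype H] (c : StarChart X H) (m : LocalModel H)

/-- general insertion along a family -/
noncomputable def insG {T κ μ : Type} [TopologicalSpace T] [Fintype κ] (s : C(T, Scale))
    (x : C(T, Conf κ X)) (w : C(T, κ → ℝ)) (e : μ → κ) (he : Function.Injective e)
    (hw : ∀ t k, 0 ≤ w t k ∧ w t k ≤ 1) (hwe : ∀ t i, w t (e i) = 1)
    (hv : ∀ t, c.Valid (s t) (x t)) : C(T, Conf (Option μ) X) where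
  toFun t := ⟨fun o => o.elim (c.L (c.Zh m (w t) (s t) (x t)))
      (fun i => c.A m (1, s t, (x t).1 (e i))), by
    intro o o' h
    cases o with
    | none =>
      cases o' with
      | none => rfl
      | some j => exact absurd h (c.extra_ne m (hw t) (hv t) (e j) (hwe t j))
    | some i =>
      cases o' with
      | none => exact absurd h.symm (c.extra_ne m (hw t) (hv t) (e i) (hwe t i))
      | some j =>
        have h' : e i = e j := c.A_inj m 1 (hv t) h
        rw [he h']⟩
  continuous_toFun := by
    refine Continuous.subtype_mk (continuous_pi fun o => ?_) _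
    cases o with
    | none =>
      simp only [Option.elim_none]
      have hz : Continuous (fun t => c.Zh m (w t) (s t) (x t)) := by
        unfold Zh
        refine continuous_finsetSum _ fun k _ => ?_
        have h1 : Continuous (fun t => w t k) := (continuous_apply k).comp w.continuous
        have h2 : Continuous (fun t => c.zeta m (s t, (x t).1 k)) :=
          (c.continuous_zeta m).comp (s.continuous.prodMk
            ((continuous_apply k).comp (continuous_subtype_val.comp x.continuous)))
        exact h1.smul h2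
      exact c.contL.comp_continuous hz fun t => (c.Zh_props m (hw t) (hv t)).1
    | some i =>
      simp only [Option.elim_some]
      refine (c.continuous_A m).comp ?_
      exact continuous_const.prodMk (s.continuous.prodMk
        ((continuous_apply (e i)).comp (continuous_subtype_val.comp x.continuous)))

/-- moving along a family -/
noncomputable def movG {T κ : Type} [TopologicalSpace T] (s : C(T, Scale))
    (x : C(T, Conf κ X)) (τ : C(T, unitInterval))
    (hv : ∀ t, c.Valid (s t) (x t)) : C(T, Conf κ X) where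
  toFun t := ⟨fun i => c.A m (τ t, s t, (x t).1 i), c.A_inj m (τ t) (hv t)⟩
  continuous_toFun := by
    refine Continuous.subtype_mk (continuous_pi fun i => ?_) _
    refine (c.continuous_A m).comp ?_
    exact τ.continuous.prodMk (s.continuous.prodMk
      ((continuous_apply i).comp (continuous_subtype_val.comp x.continuous)))

/-- pair factor -/
noncomputable def pf {κ : Type} [DecidableEq κ] (x : Conf κ X) (i j : κ) : ℝ :=
  if i = j then 1 else min 1 (max (c.r (x.1 i)) (c.r (x.1 j)))

lemma pf_pos {κ : Type} [DecidableEq κ] (x : Conf κ X) (i j : κ) : 0 < c.pf x i j := by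
  unfold pf
  split_ifs with h
  · exact one_pos
  · refine lt_min one_pos ?_
    by_contra hle
    rw [not_lt] at hle
    have h1 : c.r (x.1 i) ≤ 0 := (le_max_left _ _).trans hle
    have h2 : c.r (x.1 j) ≤ 0 := (le_max_right _ _).trans hle
    exact h (x.2 (c.eq_of_r_zero h1 h2))

lemma pf_le_one {κ : Type} [DecidableEq κ] (x : Conf κ X) (i j : κ) : c.pf x i j ≤ 1 := by
  unfold pf
  split_ifs with h
  · exact le_rfl
  · exact min_le_left _ _

lemma prod_le_factor {κ : Type} [Fintype κ] [DecidableEq κ] (f : κ → ℝ) (h0 : ∀ i, 0 ≤ f i)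
    (h1 : ∀ i, f i ≤ 1) (i : κ) : ∏ j, f j ≤ f i := by
  rw [← Finset.mul_prod_erase Finset.univ f (Finset.mem_univ i)]
  have : ∏ j ∈ Finset.univ.erase i, f j ≤ 1 :=
    Finset.prod_le_one (fun j _ => h0 j) (fun j _ => h1 j)
  calc f i * _ ≤ f i * 1 := mul_le_mul_of_nonneg_left this (h0 i)
    _ = f i := mul_one _

/-- the scale of a configuration -/
noncomputable def rho {κ : Type} [Fintype κ] [DecidableEq κ] (x : Conf κ X) : ℝ :=
  (1 / 2) * ∏ i, ∏ j, c.pf x i j

lemma rho_pos {κ : Type} [Fintype κ] [DecidableEq κ] (x : Conf κ X) : 0 < c.rho x := by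
  unfold rho
  have : 0 < ∏ i, ∏ j, c.pf x i j :=
    Finset.prod_pos fun i _ => Finset.prod_pos fun j _ => c.pf_pos x i j
  linarith

lemma rho_le_pf {κ : Type} [Fintype κ] [DecidableEq κ] (x : Conf κ X) (i j : κ) :
    c.rho x ≤ (1 / 2) * c.pf x i j := by
  unfold rho
  have h1 : ∏ i, ∏ j, c.pf x i j ≤ ∏ j, c.pf x i j := by
    refine prod_le_factor (fun i => ∏ j, c.pf x i j) (fun i => ?_) (fun i => ?_) i
    · exact Finset.prod_nonneg fun j _ => (c.pf_pos x i j).le
    · exact Finset.prod_le_one (fun j _ => (c.pf_pos x i j).le) (fun j _ => c.pf_le_one x i j)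
  have h2 : ∏ j, c.pf x i j ≤ c.pf x i j :=
    prod_le_factor (fun j => c.pf x i j) (fun j => (c.pf_pos x i j).le)
      (fun j => c.pf_le_one x i j) j
  linarith

lemma rho_le_one {κ : Type} [Fintype κ] [DecidableEq κ] (x : Conf κ X) : c.rho x ≤ 1 := by
  unfold rho
  have : ∏ i, ∏ j, c.pf x i j ≤ 1 :=
    Finset.prod_le_one (fun i _ => Finset.prod_nonneg fun j _ => (c.pf_pos x i j).le)
      (fun i _ => Finset.prod_le_one (fun j _ => (c.pf_pos x i j).le)
        (fun j _ => c.pf_le_one x i j))
  linarith

lemma rho_lt {κ : Type} [Fintype κ] [DecidableEq κ] (x : Conf κ X) (i j : κ) (h : i ≠ j) :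
    c.rho x < max (c.r (x.1 i)) (c.r (x.1 j)) := by
  have h1 := c.rho_le_pf x i j
  have h2 := c.pf_pos x i j
  have h3 : c.pf x i j ≤ max (c.r (x.1 i)) (c.r (x.1 j)) := by
    unfold pf
    rw [if_neg h]
    exact min_le_right _ _
  linarith

lemma continuous_rho {κ : Type} [Fintype κ] [DecidableEq κ] :
    Continuous (fun x : Conf κ X => c.rho x) := by
  unfold rho
  refine continuous_const.mul ?_
  refine continuous_finsetProd _ fun i _ => continuous_finsetProd _ fun j _ => ?_
  unfold pf
  split_ifs with h
  · exact continuous_const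
  · have hi : ∀ i, Continuous (fun x : Conf κ X => c.r (x.1 i)) := fun i =>
      c.r.continuous.comp ((continuous_apply i).comp continuous_subtype_val)
    have := hi i
    have := hi j
    fun_prop

/-- the scale as an element of the scale type -/
noncomputable def sc (κ : Type) [Fintype κ] [DecidableEq κ] : C(Conf κ X, Scale) where
  toFun x := ⟨c.rho x, c.rho_pos x, c.rho_le_one x⟩
  continuous_toFun := Continuous.subtype_mk c.continuous_rho _

lemma valid_sc {κ : Type} [Fintype κ] [DecidableEq κ] (x : Conf κ X) :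
    c.Valid (c.sc κ x) x := fun i j h => c.rho_lt x i j h

lemma rho_perm {κ : Type} [Fintype κ] [DecidableEq κ] (σ : Equiv.Perm κ) (x y : Conf κ X)
    (h : y.1 = x.1 ∘ σ) : c.rho y = c.rho x := by
  have key : ∀ i j, c.pf y i j = c.pf x (σ i) (σ j) := by
    intro i j
    unfold pf
    rw [h]
    simp only [Function.comp_apply]
    by_cases hij : i = j
    · rw [if_pos hij, if_pos (congrArg σ hij)]
    · rw [if_neg hij, if_neg (fun h' => hij (σ.injective h'))]
  unfold rho
  congr 1
  calc ∏ i, ∏ j, c.pf y i j = ∏ i, ∏ j, c.pf x (σ i) (σ j) := by simp only [key]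
    _ = ∏ i, ∏ j, c.pf x (σ i) j := by
        refine Finset.prod_congr rfl fun i _ => ?_
        exact Equiv.prod_comp σ (fun j => c.pf x (σ i) j)
    _ = ∏ i, ∏ j, c.pf x i j := Equiv.prod_comp σ (fun i => ∏ j, c.pf x i j)

lemma sc_perm {κ : Type} [Fintype κ] [DecidableEq κ] (σ : Equiv.Perm κ) (x y : Conf κ X)
    (h : y.1 = x.1 ∘ σ) : c.sc κ y = c.sc κ x := Subtype.ext (c.rho_perm σ x y h)

/-- constant weights -/
def oneW (T κ : Type) [TopologicalSpace T] : C(T, κ → ℝ) := .const _ (fun _ => 1)

/-- insertion -/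
noncomputable def ins0 (κ : Type) [Fintype κ] [DecidableEq κ] :
    C(Conf κ X, Conf (Option κ) X) :=
  c.insG m (c.sc κ) (.id _) (oneW _ κ) id Function.injective_id
    (fun _ _ => ⟨zero_le_one, le_rfl⟩) (fun _ _ => rfl) (fun x => c.valid_sc x)

lemma Zh_perm {κ : Type} [Fintype κ] (σ : Equiv.Perm κ) (x y : Conf κ X) (s : Scale)
    (w w' : κ → ℝ) (hw : w' = w ∘ σ) (h : y.1 = x.1 ∘ σ) : c.Zh m w' s y = c.Zh m w s x := by
  unfold Zh
  rw [h, hw]
  exact Equiv.sum_comp σ (fun k => w k • c.zeta m (s, x.1 k))

lemma ins0_perm {κ : Type} [Fintype κ] [DecidableEq κ] (σ : Equiv.Perm κ) (x y : Conf κ X)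
    (h : y.1 = x.1 ∘ σ) :
    (c.ins0 m κ y).1 = (c.ins0 m κ x).1 ∘ Equiv.optionCongr σ := by
  funext o
  cases o with
  | none =>
    change c.L (c.Zh m (fun _ => 1) (c.sc κ y) y) = c.L (c.Zh m (fun _ => 1) (c.sc κ x) x)
    rw [c.sc_perm σ x y h, c.Zh_perm m σ x y _ (fun _ => 1) (fun _ => 1) rfl h]
  | some i =>
    change c.A m (1, c.sc κ y, y.1 i) = c.A m (1, c.sc κ x, x.1 (σ i))
    rw [c.sc_perm σ x y h, h]
    rfl


/-- the interpolation of scales -/
noncomputable def scMix {T : Type} [TopologicalSpace T] (s s' : C(T, Scale))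
    (τ : C(T, unitInterval)) : C(T, Scale) where
  toFun t := ⟨(1 - (τ t : ℝ)) * (s t).1 + (τ t : ℝ) * (s' t).1, by
    have h1 := (s t).2.1
    have h2 := (s t).2.2
    have h3 := (s' t).2.1
    have h4 := (s' t).2.2
    have h5 := (τ t).2.1
    have h6 := (τ t).2.2
    constructor
    · rcases lt_or_eq_of_le h5 with h7 | h7
      · have : 0 < (τ t : ℝ) * (s' t).1 := mul_pos h7 h3
        have : 0 ≤ (1 - (τ t : ℝ)) * (s t).1 := mul_nonneg (by linarith) h1.le
        linarith
      · rw [← h7]
        simpa using h1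
    · nlinarith⟩
  continuous_toFun := by
    refine Continuous.subtype_mk ?_ _
    fun_prop

lemma valid_mix {T κ : Type} [TopologicalSpace T] (s s' : C(T, Scale))
    (τ : C(T, unitInterval)) (x : T → Conf κ X) (t : T) (h : c.Valid (s t) (x t))
    (h' : c.Valid (s' t) (x t)) : c.Valid (scMix s s' τ t) (x t) := by
  intro i j hij
  have h1 := h i j hij
  have h2 := h' i j hij
  have h5 := (τ t).2.1
  have h6 := (τ t).2.2
  change (1 - (τ t : ℝ)) * (s t).1 + (τ t : ℝ) * (s' t).1 < _
  rcases lt_or_eq_of_le h5 with h7 | h7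
  · nlinarith
  · rw [← h7]
    simpa using h1

lemma valid_some {ι : Type} (s : Scale) (y : Conf (Option ι) X) (h : c.Valid s y) :
    c.Valid s (y.res some (Option.some_injective _)) := fun i j hij =>
  h (some i) (some j) (fun h' => hij (Option.some_injective _ h'))

/-- weights in the first stage -/
def qW (ι : Type) : C(unitInterval × Conf (Option ι) X, Option ι → ℝ) where
  toFun p := fun o => o.elim (1 - (p.1 : ℝ)) (fun _ => 1)
  continuous_toFun := by
    refine continuous_pi fun o => ?_
    cases o with
    | none =>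
      simp only [Option.elim_none]
      fun_prop
    | some i =>
      simp only [Option.elim_some]
      fun_prop

variable (ι : Type) [Fintype ι] [DecidableEq ι]

/-- the property kept along the deletion homotopy -/
def QP (g : C(Conf (Option ι) X, Conf (Option ι) X)) : Prop :=
  ∀ (σ : Equiv.Perm ι) (x y : Conf (Option ι) X), y.1 = x.1 ∘ Equiv.optionCongr σ →
    (g y).1 = (g x).1 ∘ Equiv.optionCongr σ

/-- restriction along some -/
def rsome : C(Conf (Option ι) X, Conf ι X) :=
  ⟨_, Conf.continuous_res some (Option.some_injective _)⟩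

/-- restriction along the map of some -/
def rmap : C(Conf (Option (Option ι)) X, Conf (Option ι) X) :=
  ⟨_, Conf.continuous_res (Option.map some) (Option.map_injective (Option.some_injective _))⟩

/-- the middle map -/
noncomputable def qmid : C(Conf (Option ι) X, Conf (Option ι) X) :=
  c.insG m (c.sc (Option ι)) (rsome ι) (oneW _ ι) id Function.injective_id
    (fun _ _ => ⟨zero_le_one, le_rfl⟩) (fun _ _ => rfl)
    (fun y => c.valid_some _ y (c.valid_sc y))

lemma q_stage1 : ((rmap ι).comp (c.ins0 m (Option ι))).HomotopicWith (c.qmid m ι) (QP ι) := by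
  have hw : ∀ (t : unitInterval × Conf (Option ι) X) (k : Option ι),
      0 ≤ qW ι t k ∧ qW ι t k ≤ 1 := by
    intro t k
    cases k with
    | none =>
      change 0 ≤ 1 - (t.1 : ℝ) ∧ 1 - (t.1 : ℝ) ≤ 1
      have h5 := t.1.2.1
      have h6 := t.1.2.2
      constructor <;> linarith
    | some i => exact ⟨zero_le_one, le_rfl⟩
  refine mkHW (c.insG m ((c.sc (Option ι)).comp ContinuousMap.snd) ContinuousMap.snd (qW ι) some
    (Option.some_injective _) hw (fun _ _ => rfl) (fun p => c.valid_sc p.2)) _ _ ?_ ?_ _ ?_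
  · intro y
    apply Subtype.ext
    funext o
    cases o with
    | none =>
      change c.L (c.Zh m (qW ι (0, y)) (c.sc (Option ι) y) y)
        = c.L (c.Zh m (fun _ => 1) (c.sc (Option ι) y) y)
      congr 2
      funext o
      cases o with
      | none =>
        change 1 - ((0 : unitInterval) : ℝ) = 1
        simp
      | some i => rfl
    | some i => rfl
  · intro y
    apply Subtype.ext
    funext o
    cases o with
    | none =>
      change c.L (c.Zh m (qW ι (1, y)) (c.sc (Option ι) y) y)
        = c.L (c.Zh m (fun _ => 1) (c.sc (Option ι) y) (y.res some (Option.some_injective _)))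
      congr 1
      unfold Zh
      rw [Fintype.sum_option]
      have h0 : qW ι (1, y) none = 0 := by
        change 1 - ((1 : unitInterval) : ℝ) = 0
        simp
      rw [h0, zero_smul, zero_add]
      rfl
    | some i => rfl
  · intro t σ x y h
    funext o
    cases o with
    | none =>
      change c.L (c.Zh m (qW ι (t, y)) (c.sc (Option ι) y) y)
        = c.L (c.Zh m (qW ι (t, x)) (c.sc (Option ι) x) x)
      rw [c.sc_perm _ x y h]
      rw [c.Zh_perm m _ x y _ (qW ι (t, x)) (qW ι (t, y)) ?_ h]
      funext o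
      cases o <;> rfl
    | some i =>
      change c.A m (1, c.sc (Option ι) y, y.1 (some i))
        = c.A m (1, c.sc (Option ι) x, x.1 (some (σ i)))
      rw [c.sc_perm _ x y h, h]
      rfl

lemma q_stage2 : (c.qmid m ι).HomotopicWith ((c.ins0 m ι).comp (rsome ι)) (QP ι) := by
  let s1 : C(unitInterval × Conf (Option ι) X, Scale) := (c.sc (Option ι)).comp ContinuousMap.snd
  let s2 : C(unitInterval × Conf (Option ι) X, Scale) :=
    ((c.sc ι).comp (rsome ι)).comp ContinuousMap.snd
  let sm : C(unitInterval × Conf (Option ι) X, Scale) := scMix s1 s2 ContinuousMap.fst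
  have hv : ∀ p : unitInterval × Conf (Option ι) X,
      c.Valid (sm p) (((rsome ι).comp ContinuousMap.snd) p) := by
    intro p
    refine c.valid_mix s1 s2 ContinuousMap.fst (fun p => rsome ι p.2) p ?_ ?_
    · exact c.valid_some _ p.2 (c.valid_sc p.2)
    · exact c.valid_sc _
  have h0 : ∀ y, sm (0, y) = c.sc (Option ι) y := by
    intro y
    apply Subtype.ext
    change (1 - ((0 : unitInterval) : ℝ)) * _ + ((0 : unitInterval) : ℝ) * _ = _
    simp
    rfl
  have h1 : ∀ y, sm (1, y) = c.sc ι (rsome ι y) := by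
    intro y
    apply Subtype.ext
    change (1 - ((1 : unitInterval) : ℝ)) * _ + ((1 : unitInterval) : ℝ) * _ = _
    simp
    rfl
  have hsome : ∀ (σ : Equiv.Perm ι) (x y : Conf (Option ι) X),
      y.1 = x.1 ∘ Equiv.optionCongr σ → (rsome ι y).1 = (rsome ι x).1 ∘ σ := by
    intro σ x y h
    funext i
    change y.1 (some i) = x.1 (some (σ i))
    rw [h]
    rfl
  have hsm : ∀ (t : unitInterval) (σ : Equiv.Perm ι) (x y : Conf (Option ι) X),
      y.1 = x.1 ∘ Equiv.optionCongr σ → sm (t, y) = sm (t, x) := by
    intro t σ x y h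
    apply Subtype.ext
    change (1 - (t : ℝ)) * (c.sc (Option ι) y).1 + (t : ℝ) * (c.sc ι (rsome ι y)).1
      = (1 - (t : ℝ)) * (c.sc (Option ι) x).1 + (t : ℝ) * (c.sc ι (rsome ι x)).1
    rw [c.sc_perm _ x y h, c.sc_perm σ _ _ (hsome σ x y h)]
  refine mkHW (c.insG m sm ((rsome ι).comp ContinuousMap.snd) (oneW _ ι) id
    Function.injective_id (fun _ _ => ⟨zero_le_one, le_rfl⟩) (fun _ _ => rfl) hv) _ _ ?_ ?_ _ ?_
  · intro y
    apply Subtype.ext
    funext o
    cases o with
    | none =>
      change c.L (c.Zh m (fun _ => 1) (sm (0, y)) (rsome ι y))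
        = c.L (c.Zh m (fun _ => 1) (c.sc (Option ι) y) (rsome ι y))
      rw [h0]
    | some i =>
      change c.A m (1, sm (0, y), y.1 (some i)) = c.A m (1, c.sc (Option ι) y, y.1 (some i))
      rw [h0]
  · intro y
    apply Subtype.ext
    funext o
    cases o with
    | none =>
      change c.L (c.Zh m (fun _ => 1) (sm (1, y)) (rsome ι y))
        = c.L (c.Zh m (fun _ => 1) (c.sc ι (rsome ι y)) (rsome ι y))
      rw [h1]
    | some i =>
      change c.A m (1, sm (1, y), y.1 (some i)) = c.A m (1, c.sc ι (rsome ι y), y.1 (some i))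
      rw [h1]
  · intro t σ x y h
    funext o
    cases o with
    | none =>
      change c.L (c.Zh m (fun _ => 1) (sm (t, y)) (rsome ι y))
        = c.L (c.Zh m (fun _ => 1) (sm (t, x)) (rsome ι x))
      rw [hsm t σ x y h, c.Zh_perm m σ (rsome ι x) (rsome ι y) _ (fun _ => 1) (fun _ => 1) rfl
        (hsome σ x y h)]
    | some i =>
      change c.A m (1, sm (t, y), y.1 (some i)) = c.A m (1, sm (t, x), x.1 (some (σ i)))
      rw [hsm t σ x y h, h]
      rfl

/-- The insertion data attached to a star chart and a local model. -/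
theorem exists_insData (c : StarChart X H) (m : LocalModel H) : Nonempty (InsData ι X) := by
  obtain ⟨Fq⟩ := (c.q_stage1 m ι).trans (c.q_stage2 m ι)
  refine ⟨{ ins := c.ins0 m ι, insK := c.ins0 m (Option ι),
            ins_perm := fun σ x y h => c.ins0_perm m σ x y h,
            insK_perm := fun σ x y h => c.ins0_perm m σ x y h,
            G := c.movG m ((c.sc (Option ι)).comp ContinuousMap.snd) ContinuousMap.snd
              ContinuousMap.fst (fun p => c.valid_sc p.2)
            G_zero := ?_, G_one := ?_, G_perm := ?_,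
            Q := Fq.toContinuousMap, Q_zero := ?_, Q_one := ?_, Q_perm := ?_ }⟩
  · intro x
    apply Subtype.ext
    funext i
    exact c.A_zero m _ _
  · intro x
    rfl
  · intro t σ x y h
    funext i
    change c.A m (t, c.sc (Option ι) y, y.1 i) = c.A m (t, c.sc (Option ι) x, x.1 (σ i))
    rw [c.sc_perm σ x y h, h]
    rfl
  · intro y
    have := Fq.apply_zero y
    exact congrArg Subtype.val this
  · intro y
    exact Fq.apply_one y
  · intro t σ x y h
    exact Fq.prop t σ x y h

end

end StarChart

end Pool.Agent.Helper93
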