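import Pool.Agent.Helper93.Strand

set_option autoImplicit false

open Topology

namespace Pool.Agent.Helper93

/-- the circle -/
abbrev S1 := AddCircle (1 : ℝ)

/-- fractional part -/
noncomputable def fr (y : S1) : ℝ := (AddCircle.equivIco 1 0 y : ℝ)

lemma coe_fr (y : S1) : ((fr y : ℝ) : S1) = y := AddCircle.coe_equivIco

lemma fr_nonneg (y : S1) : 0 ≤ fr y := (AddCircle.equivIco 1 0 y).2.1

lemma fr_lt_one (y : S1) : fr y < 1 := by
  have := (AddCircle.equivIco 1 0 y).2.2
  simpa [fr] using this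

lemma fr_unique {y : S1} {x : ℝ} (h0 : 0 ≤ x) (h1 : x < 1) (h : (x : S1) = y) : fr y = x := by
  subst h
  unfold fr
  rw [AddCircle.equivIco_coe_eq (by rw [zero_add]; exact ⟨h0, h1⟩)]

lemma fr_zero : fr 0 = 0 := fr_unique le_rfl one_pos rfl

lemma fr_pos {y : S1} (h : y ≠ 0) : 0 < fr y := by
  refine lt_of_le_of_ne (fr_nonneg y) fun h' => h ?_
  rw [← coe_fr y, ← h']
  rfl

lemma fr_sub (x y : S1) : fr (x - y) = fr x - fr y + (if fr x < fr y then 1 else 0) := by
  have hx0 := fr_nonneg x
  have hx1 := fr_lt_one x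
  have hy0 := fr_nonneg y
  have hy1 := fr_lt_one y
  split_ifs with h
  · refine fr_unique (by linarith) (by linarith) ?_
    rw [AddCircle.coe_add, AddCircle.coe_sub, coe_fr, coe_fr, AddCircle.coe_period, add_zero]
  · rw [not_lt] at h
    refine fr_unique (by linarith) (by linarith) ?_
    rw [add_zero, AddCircle.coe_sub, coe_fr, coe_fr]

lemma continuousAt_fr {y : S1} (h : y ≠ 0) : ContinuousAt fr y := by
  have h1 : ContinuousAt (AddCircle.equivIco (1 : ℝ) 0) y :=
    AddCircle.continuousAt_equivIco 1 0 (by simpa using h)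
  exact continuous_subtype_val.continuousAt.comp h1

section

variable {ι : Type}

lemma continuous_gap (i j : ι) : Continuous (fun x : Conf ι S1 => fr (x.1 j - x.1 i)) := by
  by_cases hij : i = j
  · subst hij
    simp only [sub_self]
    exact continuous_const
  · rw [continuous_iff_continuousAt]
    intro x
    have hne : x.1 j - x.1 i ≠ 0 := by
      intro h
      exact hij (x.2 (sub_eq_zero.1 h)).symm
    have hc : ContinuousAt (fun x : Conf ι S1 => x.1 j - x.1 i) x := by
      have h1 : Continuous (fun x : Conf ι S1 => x.1 j) :=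
        (continuous_apply j).comp continuous_subtype_val
      have h2 : Continuous (fun x : Conf ι S1 => x.1 i) :=
        (continuous_apply i).comp continuous_subtype_val
      exact (h1.sub h2).continuousAt
    exact ContinuousAt.comp (f := fun x : Conf ι S1 => x.1 j - x.1 i) (g := fr)
      (continuousAt_fr hne) hc

variable [Fintype ι]

/-- the drift -/
noncomputable def drift (x : Conf ι S1) (i : ι) : ℝ :=
  (∑ j, fr (x.1 j - x.1 i)) / Fintype.card ι

lemma continuous_drift (i : ι) : Continuous (fun x : Conf ι S1 => drift x i) := by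
  unfold drift
  exact (continuous_finsetSum _ fun j _ => continuous_gap i j).div_const _

lemma drift_perm (σ : Equiv.Perm ι) (x y : Conf ι S1) (h : y.1 = x.1 ∘ σ) (i : ι) :
    drift y i = drift x (σ i) := by
  unfold drift
  rw [h]
  congr 1
  exact Equiv.sum_comp σ (fun j => fr (x.1 j - x.1 (σ i)))

lemma drift_diff [DecidableEq ι] (x : Conf ι S1) (i j : ι) :
    fr (x.1 j - x.1 i) + (drift x j - drift x i) =
      ((Finset.univ.filter fun l => fr (x.1 l - x.1 i) < fr (x.1 j - x.1 i)).card : ℝ)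
        / Fintype.card ι := by
  have hcard : (0 : ℝ) < Fintype.card ι := by
    have : 0 < Fintype.card ι := Fintype.card_pos_iff.2 ⟨i⟩
    exact_mod_cast this
  have key : ∀ l, fr (x.1 l - x.1 j) - fr (x.1 l - x.1 i) =
      - fr (x.1 j - x.1 i) + (if fr (x.1 l - x.1 i) < fr (x.1 j - x.1 i) then 1 else 0) := by
    intro l
    have := fr_sub (x.1 l - x.1 i) (x.1 j - x.1 i)
    rw [show x.1 l - x.1 i - (x.1 j - x.1 i) = x.1 l - x.1 j by abel] at this
    rw [this]
    ring
  have hsum : ∑ l, (fr (x.1 l - x.1 j) - fr (x.1 l - x.1 i)) =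
      - (Fintype.card ι) * fr (x.1 j - x.1 i)
      + ((Finset.univ.filter fun l => fr (x.1 l - x.1 i) < fr (x.1 j - x.1 i)).card : ℝ) := by
    simp only [key]
    rw [Finset.sum_add_distrib, Finset.sum_const, Finset.card_univ, Finset.sum_boole]
    simp
  unfold drift
  rw [div_sub_div_same, ← Finset.sum_sub_distrib, hsum]
  field_simp
  ring

lemma drift_range [DecidableEq ι] (x : Conf ι S1) {i j : ι} (hij : i ≠ j) :
    0 < fr (x.1 j - x.1 i) + (drift x j - drift x i) ∧
    fr (x.1 j - x.1 i) + (drift x j - drift x i) < 1 := by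
  have hcard : (0 : ℝ) < Fintype.card ι := by
    have : 0 < Fintype.card ι := Fintype.card_pos_iff.2 ⟨i⟩
    exact_mod_cast this
  rw [drift_diff]
  constructor
  · apply div_pos _ hcard
    have : 0 < (Finset.univ.filter fun l => fr (x.1 l - x.1 i) < fr (x.1 j - x.1 i)).card := by
      rw [Finset.card_pos]
      refine ⟨i, ?_⟩
      simp only [Finset.mem_filter, Finset.mem_univ, true_and, sub_self]
      rw [fr_zero]
      exact fr_pos fun h => hij (x.2 (sub_eq_zero.1 h)).symm
    exact_mod_cast this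
  · rw [div_lt_one hcard]
    have : (Finset.univ.filter fun l => fr (x.1 l - x.1 i) < fr (x.1 j - x.1 i)).card
        < Fintype.card ι := by
      rw [← Finset.card_univ]
      refine Finset.card_lt_card ?_
      rw [Finset.ssubset_univ_iff]
      intro h
      have : j ∈ (Finset.univ.filter fun l => fr (x.1 l - x.1 i) < fr (x.1 j - x.1 i)) := by
        rw [h]
        exact Finset.mem_univ j
      simp at this
    exact_mod_cast this

/-- the straightening homotopy on ordered configurations -/
noncomputable def straight [DecidableEq ι] : C(unitInterval × Conf ι S1, Conf ι S1) where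
  toFun p := ⟨fun i => p.2.1 i + (((p.1 : ℝ) * drift p.2 i : ℝ) : S1), by
    intro i j h
    by_contra hij
    obtain ⟨τ, x⟩ := p
    simp only at h
    have h1 : (x.1 j - x.1 i) + ((((τ : ℝ) * (drift x j - drift x i) : ℝ)) : S1) = 0 := by
      rw [mul_sub, AddCircle.coe_sub]
      have h' := sub_eq_zero.2 h.symm
      rw [← h']
      abel
    rw [← coe_fr (x.1 j - x.1 i), ← AddCircle.coe_add] at h1
    obtain ⟨hr1, hr2⟩ := drift_range x hij
    have hf1 : 0 < fr (x.1 j - x.1 i) := fr_pos fun h => hij (x.2 (sub_eq_zero.1 h)).symm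
    have hf2 := fr_lt_one (x.1 j - x.1 i)
    have ht0 := τ.2.1
    have ht1 := τ.2.2
    have e1 : 0 < fr (x.1 j - x.1 i) + (τ : ℝ) * (drift x j - drift x i) := by
      rcases lt_or_eq_of_le ht0 with h7 | h7
      · nlinarith
      · rw [← h7]; linarith
    have e2 : fr (x.1 j - x.1 i) + (τ : ℝ) * (drift x j - drift x i) < 1 := by
      rcases lt_or_eq_of_le ht0 with h7 | h7
      · nlinarith
      · rw [← h7]; linarith
    have e3 : fr 0 = fr (x.1 j - x.1 i) + (τ : ℝ) * (drift x j - drift x i) :=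
      fr_unique e1.le e2 h1
    rw [fr_zero] at e3
    linarith⟩
  continuous_toFun := by
    refine Continuous.subtype_mk (continuous_pi fun i => ?_) _
    refine Continuous.add ?_ ?_
    · exact (continuous_apply i).comp (continuous_subtype_val.comp continuous_snd)
    · refine (AddCircle.continuous_mk' (1 : ℝ)).comp ?_
      have := continuous_drift (ι := ι) i
      fun_prop


lemma straight_zero [DecidableEq ι] (x : Conf ι S1) : straight (0, x) = x := by
  apply Subtype.ext
  funext i
  change x.1 i + ((((0 : unitInterval) : ℝ) * drift x i : ℝ) : S1) = x.1 i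
  simp

lemma straight_perm [DecidableEq ι] (t : unitInterval) (σ : Equiv.Perm ι) (x y : Conf ι S1)
    (h : y.1 = x.1 ∘ σ) : (straight (t, y)).1 = (straight (t, x)).1 ∘ σ := by
  funext i
  change y.1 i + (((t : ℝ) * drift y i : ℝ) : S1) = x.1 (σ i) + (((t : ℝ) * drift x (σ i) : ℝ) : S1)
  rw [drift_perm σ x y h, h]
  rfl

lemma straight_one [DecidableEq ι] (x : Conf ι S1) (i : ι) :
    Fintype.card ι • (straight (1, x)).1 i = ∑ j, x.1 j := by
  have hcard : (Fintype.card ι : ℝ) ≠ 0 := by
    have : 0 < Fintype.card ι := Fintype.card_pos_iff.2 ⟨i⟩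
    exact_mod_cast this.ne'
  change Fintype.card ι • (x.1 i + ((((1 : unitInterval) : ℝ) * drift x i : ℝ) : S1)) = _
  rw [nsmul_add, ← AddCircle.coe_nsmul]
  have h1 : Fintype.card ι • (((1 : unitInterval) : ℝ) * drift x i)
      = ∑ j, fr (x.1 j - x.1 i) := by
    rw [nsmul_eq_mul, Set.Icc.coe_one, one_mul]
    unfold drift
    field_simp
  rw [h1]
  have h2 : (((∑ j, fr (x.1 j - x.1 i) : ℝ)) : S1) = ∑ j, (x.1 j - x.1 i) := by
    rw [show (((∑ j, fr (x.1 j - x.1 i) : ℝ)) : S1)
      = QuotientAddGroup.mk' _ (∑ j, fr (x.1 j - x.1 i)) from rfl, map_sum]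
    refine Finset.sum_congr rfl fun j _ => ?_
    exact coe_fr _
  rw [h2, Finset.sum_sub_distrib, Finset.sum_const, Finset.card_univ]
  abel

/-- two configurations of solutions of the same equation agree up to order -/
lemma uc_eq_of_nsmul {θ : S1} (x y : Conf ι S1) (hx : ∀ i, Fintype.card ι • x.1 i = θ)
    (hy : ∀ i, Fintype.card ι • y.1 i = θ) : uc x = uc y := by
  classical
  rcases isEmpty_or_nonempty ι with hι | ⟨⟨i0⟩⟩
  · exact uc_eq_iff.2 ⟨1, Subsingleton.elim _ _⟩
  · have hn : 0 < Fintype.card ι := Fintype.card_pos_iff.2 ⟨i0⟩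
    -- the solution set
    let T : Finset S1 := (Finset.range (Fintype.card ι)).image
      (fun m : ℕ => x.1 i0 + ((((m : ℝ) / (Fintype.card ι : ℝ) * 1 : ℝ)) : S1))
    have hT : T.card ≤ Fintype.card ι := by
      refine Finset.card_image_le.trans ?_
      simp
    have hmem : ∀ q : S1, Fintype.card ι • q = θ → q ∈ T := by
      intro q hq
      have h0 : Fintype.card ι • (q - x.1 i0) = 0 := by
        rw [nsmul_sub, hq, hx, sub_self]
      obtain ⟨m, hm, hm'⟩ := (AddCircle.nsmul_eq_zero_iff hn).1 h0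
      simp only [T, Finset.mem_image, Finset.mem_range]
      refine ⟨m, hm, ?_⟩
      rw [hm']
      abel
    have himg : ∀ z : Conf ι S1, (∀ i, Fintype.card ι • z.1 i = θ) →
        Finset.univ.image z.1 = T := by
      intro z hz
      refine Finset.eq_of_subset_of_card_le ?_ ?_
      · intro q hq
        simp only [Finset.mem_image, Finset.mem_univ, true_and] at hq
        obtain ⟨i, rfl⟩ := hq
        exact hmem _ (hz i)
      · rw [Finset.card_image_of_injective _ z.2, Finset.card_univ]
        exact hT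
    have hxy : Set.range x.1 = Set.range y.1 := by
      have h1 := himg x hx
      have h2 := himg y hy
      have h3 : Finset.univ.image x.1 = Finset.univ.image y.1 := h1.trans h2.symm
      have h4 := congrArg (fun F : Finset S1 => (F : Set S1)) h3
      simpa using h4
    rw [uc_eq_iff]
    let ex := Equiv.ofInjective x.1 x.2
    let ey := Equiv.ofInjective y.1 y.2
    refine ⟨(ey.trans (Equiv.setCongr hxy.symm)).trans ex.symm, ?_⟩
    funext i
    simp only [Function.comp_apply, Equiv.trans_apply]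
    have := Equiv.apply_ofInjective_symm x.2 ((Equiv.setCongr hxy.symm) (ey i))
    rw [this]
    rfl

end

/-- equally spaced points -/
noncomputable def eq0 (n : ℕ) (p : S1) : Conf (Fin n) S1 :=
  ⟨fun j => p + ((((j : ℕ) : ℝ) / n : ℝ) : S1), by
    intro i j h
    have hn : (0 : ℝ) < n := by
      have : 0 < n := i.pos
      exact_mod_cast this
    simp only [add_right_inj] at h
    have hi : ((i : ℕ) : ℝ) / n < 1 := by
      rw [div_lt_one hn]
      exact_mod_cast i.2
    have hj : ((j : ℕ) : ℝ) / n < 1 := by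
      rw [div_lt_one hn]
      exact_mod_cast j.2
    have h1 : fr ((((i : ℕ) : ℝ) / n : ℝ) : S1) = ((i : ℕ) : ℝ) / n :=
      fr_unique (by positivity) hi rfl
    have h2 : fr ((((j : ℕ) : ℝ) / n : ℝ) : S1) = ((j : ℕ) : ℝ) / n :=
      fr_unique (by positivity) hj rfl
    rw [h, h2] at h1
    have h3 : ((j : ℕ) : ℝ) = ((i : ℕ) : ℝ) := by
      field_simp at h1
      exact h1
    have h4 : (j : ℕ) = (i : ℕ) := by exact_mod_cast h3
    exact Fin.ext h4.symm⟩

lemma continuous_eq0 (n : ℕ) : Continuous (eq0 n) := by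
  unfold eq0
  refine Continuous.subtype_mk (continuous_pi fun i => ?_) _
  fun_prop

lemma eq0_nsmul (n : ℕ) (p : S1) (j : Fin n) : n • (eq0 n p).1 j = n • p := by
  have hn : (n : ℝ) ≠ 0 := by
    have : 0 < n := j.pos
    exact_mod_cast this.ne'
  change n • (p + ((((j : ℕ) : ℝ) / n : ℝ) : S1)) = n • p
  rw [nsmul_add, ← AddCircle.coe_nsmul]
  have : n • (((j : ℕ) : ℝ) / n) = (((j : ℕ) : ℤ)) • (1 : ℝ) := by
    rw [nsmul_eq_mul]
    field_simp
    simp
  rw [this, AddCircle.coe_zsmul, AddCircle.coe_period]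
  simp

lemma isQuotientMap_nsmul {n : ℕ} (hn : n ≠ 0) : IsQuotientMap (fun p : S1 => n • p) := by
  have hc : Continuous (fun p : S1 => n • p) := by fun_prop
  refine IsQuotientMap.of_surjective_continuous ?_ hc
  intro θ
  refine ⟨((fr θ / n : ℝ) : S1), ?_⟩
  simp only
  rw [← AddCircle.coe_nsmul, nsmul_eq_mul]
  have hn' : (n : ℝ) ≠ 0 := by exact_mod_cast hn
  rw [mul_div_cancel₀ _ hn']
  exact coe_fr θ

/-- the map to unordered configurations -/
lemma exists_eqmap {n : ℕ} (hn : n ≠ 0) :
    ∃ g : C(S1, UConf (Fin n) S1), ∀ p, g (n • p) = uc (eq0 n p) := by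
  have hq := isQuotientMap_nsmul hn
  have hs := hq.surjective
  choose r hr using hs
  have key : ∀ p, uc (eq0 n (r (n • p))) = uc (eq0 n p) := by
    intro p
    refine uc_eq_of_nsmul (θ := n • p) _ _ (fun i => ?_) (fun i => ?_)
    · rw [Fintype.card_fin, eq0_nsmul]
      exact hr _
    · rw [Fintype.card_fin, eq0_nsmul]
  refine ⟨⟨fun θ => uc (eq0 n (r θ)), ?_⟩, key⟩
  rw [hq.continuous_iff]
  have : (fun θ => uc (eq0 n (r θ))) ∘ (fun p : S1 => n • p) = fun p => uc (eq0 n p) :=
    funext key
  rw [this]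
  exact continuous_uc.comp (continuous_eq0 n)

/-- the sum map -/
noncomputable def sumS (n : ℕ) : C(UConf (Fin n) S1, S1) where
  toFun := Quot.lift (fun x => ∑ i, x.1 i) (by
    rintro x y ⟨σ, h⟩
    rw [h]
    exact (Equiv.sum_comp σ x.1).symm)
  continuous_toFun := by
    refine continuous_quot_lift _ ?_
    refine continuous_finsetSum _ fun i _ => ?_
    exact (continuous_apply i).comp continuous_subtype_val

lemma sumS_uc (n : ℕ) (x : Conf (Fin n) S1) : sumS n (uc x) = ∑ i, x.1 i := rfl

/-- straightening on unordered configurations -/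
lemma straighten {n : ℕ} (g : C(S1, UConf (Fin n) S1)) (hn : n ≠ 0)
    (hg : ∀ p, g (n • p) = uc (eq0 n p)) :
    (g.comp (sumS n)).Homotopic (.id _) := by
  have hgx : ∀ (x : Conf (Fin n) S1) (θ : S1), (∀ i, n • x.1 i = θ) → g θ = uc x := by
    intro x θ hx
    obtain ⟨p, hp⟩ := (isQuotientMap_nsmul hn).surjective θ
    simp only at hp
    rw [← hp, hg]
    refine uc_eq_of_nsmul (θ := θ) _ _ (fun i => ?_) (fun i => ?_)
    · rw [Fintype.card_fin, eq0_nsmul, hp]
    · rw [Fintype.card_fin]
      exact hx i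
  obtain ⟨G, hG⟩ := descend (fun _ : Unit => Conf (Fin n) S1) (fun _ x => uc x)
    (fun _ => isOpenMap_uc) (fun c => ⟨(), uc_surj c⟩)
    (fun _ p => uc (straight p)) (fun _ => continuous_uc.comp straight.continuous)
    (by
      rintro _ _ x y t h
      obtain ⟨σ, hσ⟩ := uc_eq_iff.1 h
      exact uc_eq_iff.2 ⟨σ, straight_perm t σ x y hσ⟩)
  refine ContinuousMap.Homotopic.symm ⟨⟨G, fun c => ?_, fun c => ?_⟩⟩
  · obtain ⟨x, rfl⟩ := uc_surj c
    have := hG () 0 x
    change G (0, uc x) = uc x
    rw [this, straight_zero]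
  · obtain ⟨x, rfl⟩ := uc_surj c
    have := hG () 1 x
    change G (1, uc x) = g (sumS n (uc x))
    rw [this, sumS_uc]
    refine (hgx _ _ fun i => ?_).symm
    have := straight_one x i
    rwa [Fintype.card_fin] at this

/-- The circle case. -/
theorem circle_hmono {n : ℕ} (hn : n ≠ 0) :
    ∃ f : C(UConf (Fin n) S1, UConf (Fin (n + 1)) S1), HMono f := by
  obtain ⟨g, hg⟩ := exists_eqmap hn
  obtain ⟨g', hg'⟩ := exists_eqmap (Nat.succ_ne_zero n)
  let c : S1 := ∑ j : Fin (n + 1), ((((j : ℕ) : ℝ) / ((n + 1 : ℕ) : ℝ) : ℝ) : S1)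
  have h1 : ∀ θ, sumS (n + 1) (g' θ) = θ + c := by
    intro θ
    obtain ⟨p, hp⟩ := (isQuotientMap_nsmul (Nat.succ_ne_zero n)).surjective θ
    change (n + 1) • p = θ at hp
    rw [← hp, hg', sumS_uc]
    change ∑ j : Fin (n + 1), (p + ((((j : ℕ) : ℝ) / ((n + 1 : ℕ) : ℝ) : ℝ) : S1)) = _
    rw [Finset.sum_add_distrib, Finset.sum_const, Finset.card_univ, Fintype.card_fin]
  refine ⟨g'.comp (sumS n), HMono.of_left_inv
    (g.comp ((⟨fun θ => θ - c, by fun_prop⟩ : C(S1, S1)).comp (sumS (n + 1)))) ?_⟩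
  have h2 : (g.comp ((⟨fun θ => θ - c, by fun_prop⟩ : C(S1, S1)).comp (sumS (n + 1)))).comp
      (g'.comp (sumS n)) = g.comp (sumS n) := by
    ext x
    change g (sumS (n + 1) (g' (sumS n x)) - c) = g (sumS n x)
    rw [h1, add_sub_cancel_right]
  rw [h2]
  exact straighten g hn hg

end Pool.Agent.Helper93
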