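import Mathlib

set_option autoImplicit false

open Topology

namespace Pool.Agent.Helper93

/-- Ordered configurations. -/
abbrev Conf (ι X : Type) := {x : ι → X // Function.Injective x}

/-- Unordered configurations. -/
abbrev UConf (ι X : Type) := Quot (fun v w : Conf ι X => ∃ σ : Equiv.Perm ι, w.1 = v.1 ∘ σ)

section basic

variable {ι κ X : Type}

/-- reindexing along an injection -/
def Conf.res (e : ι → κ) (he : Function.Injective e) (x : Conf κ X) : Conf ι X :=
  ⟨x.1 ∘ e, x.2.comp he⟩

@[simp] lemma Conf.res_val (e : ι → κ) (he : Function.Injective e) (x : Conf κ X) :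
    (x.res e he).1 = x.1 ∘ e := rfl

/-- the class of an ordered configuration -/
def uc (x : Conf ι X) : UConf ι X := Quot.mk _ x

lemma uc_surj (c : UConf ι X) : ∃ x : Conf ι X, uc x = c := by
  induction c using Quot.ind with
  | mk x => exact ⟨x, rfl⟩

lemma uc_eq_iff {x y : Conf ι X} : uc x = uc y ↔ ∃ σ : Equiv.Perm ι, y.1 = x.1 ∘ σ := by
  constructor
  · intro h
    have h' := Quot.eqvGen_exact h
    induction h' with
    | rel a b hab => exact hab
    | refl a => exact ⟨1, by ext i; rfl⟩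
    | symm a b _ ih =>
      obtain ⟨σ, hσ⟩ := ih (Quot.eqvGen_sound (by assumption))
      exact ⟨σ⁻¹, by rw [hσ]; ext i; simp⟩
    | trans a b c _ _ ih1 ih2 =>
      obtain ⟨σ, hσ⟩ := ih1 (Quot.eqvGen_sound (by assumption))
      obtain ⟨τ, hτ⟩ := ih2 (Quot.eqvGen_sound (by assumption))
      exact ⟨σ * τ, by rw [hτ, hσ]; ext i; simp⟩
  · rintro ⟨σ, hσ⟩
    exact Quot.sound ⟨σ, hσ⟩

variable [TopologicalSpace X]

lemma continuous_uc : Continuous (uc : Conf ι X → UConf ι X) := continuous_quot_mk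

lemma Conf.continuous_res (e : ι → κ) (he : Function.Injective e) :
    Continuous (Conf.res (X := X) e he) := by
  refine Continuous.subtype_mk ?_ _
  exact continuous_pi fun i => (continuous_apply (e i)).comp continuous_subtype_val

lemma isQuotientMap_uc : IsQuotientMap (uc : Conf ι X → UConf ι X) := isQuotientMap_quot_mk

/-- the action of permutations on ordered configurations -/
@[reducible] def permAct (ι X : Type) : MulAction (Equiv.Perm ι) (Conf ι X) where
  smul σ x := ⟨x.1 ∘ (σ⁻¹ : Equiv.Perm ι), x.2.comp (σ⁻¹ : Equiv.Perm ι).injective⟩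
  one_smul x := by
    apply Subtype.ext
    rfl
  mul_smul σ τ x := by
    apply Subtype.ext
    funext i
    change x.1 ((σ * τ)⁻¹ i) = x.1 (τ⁻¹ (σ⁻¹ i))
    simp

lemma isQuotientCoveringMap_uc [Finite ι] [T2Space X] :
    letI := permAct ι X
    IsQuotientCoveringMap (uc : Conf ι X → UConf ι X) (Equiv.Perm ι) := by
  let _ := permAct ι X
  have hact : ∀ (σ : Equiv.Perm ι) (x : Conf ι X), (σ • x).1 = x.1 ∘ (σ⁻¹ : Equiv.Perm ι) :=
    fun σ x => rfl
  refine { isQuotientMap_uc with
    continuous_const_smul := fun σ => ?_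
    apply_eq_iff_mem_orbit := ?_
    disjoint := ?_ }
  · exact Conf.continuous_res _ (σ⁻¹ : Equiv.Perm ι).injective
  · intro x y
    rw [uc_eq_iff]
    constructor
    · rintro ⟨σ, hσ⟩
      refine ⟨σ, Subtype.ext ?_⟩
      change (σ • y).1 = x.1
      rw [hact, hσ]
      ext i
      simp
    · rintro ⟨σ, hσ⟩
      refine ⟨σ, ?_⟩
      have : x.1 = (σ • y).1 := by rw [← hσ]
      rw [this, hact]
      ext i
      simp
  · intro x
    obtain ⟨U, hU, hd⟩ := (Set.finite_range x.1).t2_separation
    refine ⟨{y | ∀ i, y.1 i ∈ U (x.1 i)}, ?_, ?_⟩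
    · have : IsOpen {y : Conf ι X | ∀ i, y.1 i ∈ U (x.1 i)} := by
        rw [Set.ofPred_forall]
        refine isOpen_iInter_of_finite fun i => ?_
        exact (hU (x.1 i)).2.preimage ((continuous_apply i).comp continuous_subtype_val)
      exact this.mem_nhds fun i => (hU (x.1 i)).1
    · rintro σ ⟨_, ⟨y, hy, rfl⟩, hy'⟩
      have key : ∀ i, σ⁻¹ i = i := by
        intro i
        by_contra hne
        have h1 : y.1 (σ⁻¹ i) ∈ U (x.1 (σ⁻¹ i)) := hy _
        have h2 : y.1 (σ⁻¹ i) ∈ U (x.1 i) := hy' i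
        have := hd (Set.mem_range_self (σ⁻¹ i)) (Set.mem_range_self i) (fun h => hne (x.2 h))
        exact Set.disjoint_left.1 this h1 h2
      have h3 : σ⁻¹ = 1 := Equiv.ext key
      simpa using h3

lemma isCoveringMap_uc [Finite ι] [T2Space X] : IsCoveringMap (uc : Conf ι X → UConf ι X) := by
  let _ := permAct ι X
  exact isQuotientCoveringMap_uc.isCoveringMap

lemma isOpenMap_uc [Finite ι] [T2Space X] : IsOpenMap (uc : Conf ι X → UConf ι X) :=
  isCoveringMap_uc.isOpenMap

/-- the map on unordered configurations induced by an equivariant map -/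
def umap {μ : Type} (f : C(Conf ι X, Conf μ X))
    (hf : ∀ (σ : Equiv.Perm ι) (x y : Conf ι X), y.1 = x.1 ∘ σ → uc (f x) = uc (f y)) :
    C(UConf ι X, UConf μ X) where
  toFun := Quot.lift (fun x => uc (f x)) (fun x y h => by
    obtain ⟨σ, hσ⟩ := h
    exact hf σ x y hσ)
  continuous_toFun := continuous_quot_lift _ (continuous_uc.comp f.continuous)

@[simp] lemma umap_uc {μ : Type} (f : C(Conf ι X, Conf μ X))
    (hf : ∀ (σ : Equiv.Perm ι) (x y : Conf ι X), y.1 = x.1 ∘ σ → uc (f x) = uc (f y))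
    (x : Conf ι X) : umap f hf (uc x) = uc (f x) := rfl

end basic

end Pool.Agent.Helper93
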