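import Pool.Agent.Helper93.Graph
import Pool.Agent.Helper93.Circle

set_option autoImplicit false

open Topology

namespace Pool.Agent.Helper93

section

variable {a m : ℕ} (s t : Fin m → Fin a)

/-- origin of a half-edge -/
def org (d : Fin m × Bool) : Fin a := if d.2 then t d.1 else s d.1

/-- reversal -/
def rev (d : Fin m × Bool) : Fin m × Bool := (d.1, !d.2)

lemma rev_rev (d : Fin m × Bool) : rev (rev d) = d := by
  simp [rev]

lemma rev_ne (d : Fin m × Bool) : rev d ≠ d := by
  obtain ⟨e, b⟩ := d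
  cases b <;> simp [rev]

lemma other_exists (h2 : ∀ v, Fintype.card (HE s t v) = 2) (d : Fin m × Bool) :
    ∃ d', d' ≠ d ∧ org s t d' = org s t d ∧
      ∀ d'', org s t d'' = org s t d → d'' = d ∨ d'' = d' := by
  have h := h2 (org s t d)
  rw [← Finset.card_univ, Finset.card_eq_two] at h
  obtain ⟨x, y, hxy, hu⟩ := h
  have hmem : ∀ d'', org s t d'' = org s t d → d'' = x.1 ∨ d'' = y.1 := by
    intro d'' hd
    have : (⟨d'', hd⟩ : HE s t (org s t d)) ∈ (Finset.univ : Finset (HE s t (org s t d))) :=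
      Finset.mem_univ _
    rw [hu] at this
    simp only [Finset.mem_insert, Finset.mem_singleton] at this
    rcases this with h | h
    · left; exact congrArg Subtype.val h
    · right; exact congrArg Subtype.val h
  have hxy' : x.1 ≠ y.1 := fun h => hxy (Subtype.ext h)
  rcases hmem d rfl with h | h
  · refine ⟨y.1, fun h' => hxy' (h.symm.trans h'.symm), y.2, fun d'' hd => ?_⟩
    rcases hmem d'' hd with h' | h'
    · left; exact h'.trans h.symm
    · right; exact h'
  · refine ⟨x.1, fun h' => hxy' (h'.trans h), x.2, fun d'' hd => ?_⟩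
    rcases hmem d'' hd with h' | h'
    · right; exact h'
    · left; exact h'.trans h.symm

/-- combinatorial structure of a two-regular graph -/
structure Two where
  ot : Fin m × Bool → Fin m × Bool
  ne : ∀ d, ot d ≠ d
  org_ot : ∀ d, org s t (ot d) = org s t d
  or_of : ∀ d d', org s t d' = org s t d → d' = d ∨ d' = ot d
  d0 : Fin m × Bool

variable {s t}

namespace Two

variable (T : Two s t)

lemma ot_ot (d : Fin m × Bool) : T.ot (T.ot d) = d := by
  rcases T.or_of (T.ot d) d (T.org_ot d).symm with h | h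
  · exact absurd h.symm (T.ne d)
  · exact h.symm

/-- the next half-edge -/
def nx (d : Fin m × Bool) : Fin m × Bool := T.ot (rev d)

lemma nx_inj : Function.Injective T.nx := by
  intro d d' h
  have h1 := congrArg T.ot h
  unfold nx at h1
  rw [T.ot_ot, T.ot_ot] at h1
  rw [← rev_rev d, h1, rev_rev]

lemma key1 (d : Fin m × Bool) : T.nx (rev (T.nx d)) = rev d := by
  unfold nx
  rw [rev_rev, T.ot_ot]

lemma key2 (n : ℕ) : ∀ d, rev d ≠ T.nx^[n] d := by
  induction n using Nat.strong_induction_on with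
  | _ n ih =>
    intro d h
    match n, ih, h with
    | 0, _, h => exact rev_ne d h
    | 1, _, h => exact T.ne (rev d) h.symm
    | (k + 2), ih, h =>
      refine ih k (by omega) (T.nx d) ?_
      apply T.nx_inj
      rw [T.key1, h]
      rw [← Function.iterate_succ_apply' T.nx, ← Function.iterate_succ_apply T.nx]

/-- the period -/
noncomputable def N : ℕ := Function.minimalPeriod T.nx T.d0

lemma N_pos : 0 < T.N :=
  Function.minimalPeriod_pos_of_mem_periodicPts (T.nx_inj.mem_periodicPts T.d0)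

/-- forward half-edges -/
def fwd (d : Fin m × Bool) : Prop := ∃ n, T.nx^[n] T.d0 = d

lemma fwd_nx {d : Fin m × Bool} (h : T.fwd d) : T.fwd (T.nx d) := by
  obtain ⟨n, rfl⟩ := h
  exact ⟨n + 1, Function.iterate_succ_apply' _ _ _⟩

lemma fwd_pred {d : Fin m × Bool} (h : T.fwd d) : ∃ d', T.fwd d' ∧ T.nx d' = d := by
  obtain ⟨n, rfl⟩ := h
  refine ⟨T.nx^[n + (T.N - 1)] T.d0, ⟨_, rfl⟩, ?_⟩
  rw [← Function.iterate_succ_apply' T.nx]
  have := T.N_pos
  rw [show (n + (T.N - 1)).succ = n + T.N by omega]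
  exact Function.iterate_add_minimalPeriod_eq

lemma not_fwd_rev {d : Fin m × Bool} (h : T.fwd d) : ¬ T.fwd (rev d) := by
  rintro ⟨j, hj⟩
  obtain ⟨i, rfl⟩ := h
  rcases le_total i j with hij | hij
  · refine T.key2 (j - i) (T.nx^[i] T.d0) ?_
    rw [← Function.iterate_add_apply, Nat.sub_add_cancel hij]
    exact hj.symm
  · refine T.key2 (i - j) (T.nx^[j] T.d0) ?_
    rw [← Function.iterate_add_apply, Nat.sub_add_cancel hij, hj, rev_rev]

open Classical in
/-- the position of a forward half-edge on the circle -/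
noncomputable def val (d : Fin m × Bool) : S1 :=
  if h : T.fwd d then (((h.choose : ℝ) / T.N : ℝ) : S1) else 0

lemma coe_div_N_mod (n : ℕ) : (((n : ℝ) / T.N : ℝ) : S1) = ((((n % T.N : ℕ) : ℝ) / T.N : ℝ) : S1) := by
  have hN : (T.N : ℝ) ≠ 0 := by exact_mod_cast T.N_pos.ne'
  have h1 : (n : ℝ) / T.N = ((n % T.N : ℕ) : ℝ) / T.N + (((n / T.N : ℕ) : ℤ) • (1 : ℝ)) := by
    have h2 : (n : ℝ) = ((n % T.N : ℕ) : ℝ) + (T.N : ℝ) * ((n / T.N : ℕ) : ℝ) := by
      exact_mod_cast (Nat.mod_add_div n T.N).symm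
    simp only [zsmul_eq_mul, mul_one, Int.cast_natCast]
    field_simp
    exact h2
  rw [h1, AddCircle.coe_add, AddCircle.coe_zsmul, AddCircle.coe_period]
  simp

lemma val_iter (n : ℕ) : T.val (T.nx^[n] T.d0) = (((n : ℝ) / T.N : ℝ) : S1) := by
  have h : T.fwd (T.nx^[n] T.d0) := ⟨n, rfl⟩
  unfold val
  rw [dif_pos h]
  have h1 := h.choose_spec
  have h2 : h.choose % T.N = n % T.N := by
    have e1 : T.nx^[h.choose % T.N] T.d0 = T.nx^[n % T.N] T.d0 := by
      unfold N
      rw [Function.iterate_mod_minimalPeriod_eq, Function.iterate_mod_minimalPeriod_eq]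
      exact h1
    exact (Function.iterate_eq_iterate_iff_of_lt_minimalPeriod
      (Nat.mod_lt _ T.N_pos) (Nat.mod_lt _ T.N_pos)).1 e1
  rw [T.coe_div_N_mod, h2, ← T.coe_div_N_mod]

lemma val_nx {d : Fin m × Bool} (h : T.fwd d) :
    T.val (T.nx d) = T.val d + (((1 : ℝ) / T.N : ℝ) : S1) := by
  obtain ⟨n, rfl⟩ := h
  rw [← Function.iterate_succ_apply' T.nx, val_iter, val_iter, ← AddCircle.coe_add]
  congr 1
  push_cast
  ring

lemma fwd_unique {d d' : Fin m × Bool} (h : T.fwd d) (h' : T.fwd d')
    (ho : org s t d' = org s t d) : d' = d := by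
  rcases T.or_of d d' ho with h1 | h1
  · exact h1
  · exfalso
    obtain ⟨d'', h2, h3⟩ := T.fwd_pred h'
    rw [h1] at h3
    unfold nx at h3
    have h4 := congrArg T.ot h3
    rw [T.ot_ot, T.ot_ot] at h4
    exact T.not_fwd_rev h2 (h4 ▸ h)

/-- visited half-edges -/
def vis (d : Fin m × Bool) : Prop := T.fwd d ∨ T.fwd (rev d)

lemma vis_rev {d : Fin m × Bool} : T.vis (rev d) ↔ T.vis d := by
  unfold vis
  rw [rev_rev]
  exact or_comm

lemma vis_ot {d : Fin m × Bool} (h : T.vis d) : T.vis (T.ot d) := by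
  rcases h with h | h
  · obtain ⟨d'', h2, h3⟩ := T.fwd_pred h
    unfold nx at h3
    rw [← h3, T.ot_ot]
    right
    rw [rev_rev]
    exact h2
  · left
    have := T.fwd_nx h
    unfold nx at this
    rwa [rev_rev] at this

lemma vis_of_org {d d' : Fin m × Bool} (h : T.vis d) (ho : org s t d' = org s t d) :
    T.vis d' := by
  rcases T.or_of d d' ho with h1 | h1
  · rw [h1]; exact h
  · rw [h1]; exact T.vis_ot h

open Classical in
/-- the indicator of the visited part -/
noncomputable def chi : Gr s t → ℝ :=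
  gLift s t (fun v => if ∃ d, org s t d = v ∧ T.vis d then 1 else 0)
    (fun e _ => if T.vis (e, false) then 1 else 0)
    (fun e => by
      have : T.vis (e, false) ↔ ∃ d, org s t d = s e ∧ T.vis d := by
        constructor
        · intro h
          exact ⟨(e, false), by simp [org], h⟩
        · rintro ⟨d, h1, h2⟩
          exact T.vis_of_org h2 (by rw [h1]; simp [org])
      simp only [this])
    (fun e => by
      have : T.vis (e, false) ↔ ∃ d, org s t d = t e ∧ T.vis d := by
        rw [← T.vis_rev]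
        constructor
        · intro h
          exact ⟨(e, true), by simp [org], by simpa [rev] using h⟩
        · rintro ⟨d, h1, h2⟩
          have : rev (e, false) = (e, true) := by simp [rev]
          rw [this]
          exact T.vis_of_org h2 (by rw [h1]; simp [org])
      simp only [this])

lemma continuous_chi : Continuous T.chi :=
  continuous_gLift _ _ _ _ fun _ => continuous_const

lemma chi_values (p : Gr s t) : T.chi p = 0 ∨ T.chi p = 1 := by
  refine gr_ind s t (P := fun p => T.chi p = 0 ∨ T.chi p = 1) ?_ ?_ p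
  · intro j
    simp only [chi, gLift_gv]
    split_ifs
    · right; rfl
    · left; rfl
  · intro e x
    simp only [chi, gLift_ge]
    split_ifs
    · right; rfl
    · left; rfl

lemma vis_false (d : Fin m × Bool) : T.vis (d.1, false) ↔ T.vis d := by
  obtain ⟨e, b⟩ := d
  cases b
  · exact Iff.rfl
  · rw [← T.vis_rev (d := (e, true))]
    exact Iff.rfl

lemma all_vis [PreconnectedSpace (Gr s t)] (d : Fin m × Bool) : T.vis d := by
  rw [← T.vis_false]
  by_contra hne
  have h0 : T.chi (ge s t d.1 0) = 0 := by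
    simp only [chi, gLift_ge]
    rw [if_neg hne]
  have h1 : T.chi (ge s t T.d0.1 0) = 1 := by
    simp only [chi, gLift_ge]
    rw [if_pos ((T.vis_false T.d0).2 (Or.inl ⟨0, rfl⟩))]
  have h2 : (1 / 2 : ℝ) ∈ Set.range T.chi :=
    mem_range_of_exists_le_of_exists_ge T.continuous_chi ⟨_, by rw [h0]; norm_num⟩
      ⟨_, by rw [h1]; norm_num⟩
  obtain ⟨p, hp⟩ := h2
  rcases T.chi_values p with h | h
  · rw [h] at hp; norm_num at hp
  · rw [h] at hp; norm_num at hp

/-- points on half-edges -/
def pt (s t : Fin m → Fin a) (d : Fin m × Bool) (x : unitInterval) : Gr s t :=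
  if d.2 then ge s t d.1 (unitInterval.symm x) else ge s t d.1 x

lemma pt_zero (d : Fin m × Bool) : pt s t d 0 = gv s t (org s t d) := by
  obtain ⟨e, b⟩ := d
  cases b
  · simp only [pt, org, Bool.false_eq_true, if_false]
    exact ge_zero s t e
  · simp only [pt, org, if_true, unitInterval.symm_zero]
    exact ge_one s t e

variable [PreconnectedSpace (Gr s t)]

lemma exists_fwd_at (v : Fin a) (h2 : ∀ v, Fintype.card (HE s t v) = 2) :
    ∃ d, T.fwd d ∧ org s t d = v := by
  have h : 0 < Fintype.card (HE s t v) := by rw [h2]; norm_num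
  obtain ⟨⟨d, hd⟩⟩ := Fintype.card_pos_iff.1 h
  have hd' : org s t d = v := hd
  rcases T.all_vis d with h | h
  · exact ⟨d, h, hd'⟩
  · refine ⟨T.nx (rev d), T.fwd_nx h, ?_⟩
    unfold nx
    rw [rev_rev, T.org_ot]
    exact hd'

open Classical in
/-- the map to the circle -/
lemma exists_psi (h2 : ∀ v, Fintype.card (HE s t v) = 2) :
    ∃ ψ : Gr s t → S1, Continuous ψ ∧ ∀ (d : Fin m × Bool) (x : unitInterval), T.fwd d →
      ψ (pt s t d x) = T.val d + ((((x : ℝ) / T.N : ℝ)) : S1) := by
  choose fv hfv1 hfv2 using fun v => T.exists_fwd_at v h2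
  have hfv : ∀ d, T.fwd d → fv (org s t d) = d := fun d hd =>
    T.fwd_unique hd (hfv1 _) (hfv2 _)
  have hnf : ∀ e, ¬ T.fwd (e, false) → T.fwd (e, true) := by
    intro e he
    rcases T.all_vis (e, false) with h | h
    · exact absurd h he
    · exact h
  have horg : ∀ d, org s t (T.nx d) = org s t (rev d) := fun d => T.org_ot _
  refine ⟨gLift s t (fun v => T.val (fv v))
    (fun e x => if T.fwd (e, false) then T.val (e, false) + ((((x : ℝ) / T.N : ℝ)) : S1)
      else T.val (e, true) + ((((1 - (x : ℝ)) / T.N : ℝ)) : S1)) ?_ ?_, ?_, ?_⟩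
  · intro e
    simp only [Set.Icc.coe_zero]
    split_ifs with h
    · have := hfv _ h
      simp only [org, Bool.false_eq_true, if_false] at this
      rw [this]
      simp
    · have h' := hnf e h
      have h3 := T.fwd_nx h'
      have h4 := hfv _ h3
      rw [horg] at h4
      simp only [org, rev, Bool.not_true, Bool.false_eq_true, if_false] at h4
      rw [h4, T.val_nx h', sub_zero]
  · intro e
    simp only [Set.Icc.coe_one]
    split_ifs with h
    · have h3 := T.fwd_nx h
      have h4 := hfv _ h3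
      rw [horg] at h4
      simp only [org, rev, Bool.not_false, if_true] at h4
      rw [h4, T.val_nx h]
    · have h' := hnf e h
      have := hfv _ h'
      simp only [org, if_true] at this
      rw [this]
      simp
  · refine continuous_gLift _ _ _ _ fun e => ?_
    split_ifs
    · have : Continuous (fun x : unitInterval => ((((x : ℝ) / T.N : ℝ)) : S1)) :=
        (AddCircle.continuous_mk' (1 : ℝ)).comp (by fun_prop)
      exact continuous_const.add this
    · have : Continuous (fun x : unitInterval => ((((1 - (x : ℝ)) / T.N : ℝ)) : S1)) :=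
        (AddCircle.continuous_mk' (1 : ℝ)).comp (by fun_prop)
      exact continuous_const.add this
  · rintro ⟨e, b⟩ x hd
    cases b
    · simp only [pt, Bool.false_eq_true, if_false, gLift_ge]
      rw [if_pos hd]
    · simp only [pt, if_true, gLift_ge]
      have hn : ¬ T.fwd (e, false) := T.not_fwd_rev hd
      rw [if_neg hn]
      simp only [unitInterval.coe_symm_eq]
      rw [sub_sub_cancel]

lemma pt_surj (h2 : ∀ v, Fintype.card (HE s t v) = 2) (p : Gr s t) :
    ∃ (n : ℕ) (x : unitInterval), n < T.N ∧ (x : ℝ) < 1 ∧ p = pt s t (T.nx^[n] T.d0) x := by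
  have red : ∀ d, T.fwd d → ∃ n, n < T.N ∧ T.nx^[n] T.d0 = d := by
    rintro d ⟨n, rfl⟩
    exact ⟨n % T.N, Nat.mod_lt _ T.N_pos, Function.iterate_mod_minimalPeriod_eq⟩
  have goal : ∃ (d : Fin m × Bool) (x : unitInterval),
      T.fwd d ∧ (x : ℝ) < 1 ∧ p = pt s t d x := by
    rcases gr_cases p with ⟨j, rfl⟩ | ⟨e, x, hx0, hx1, rfl⟩
    · obtain ⟨d, hd, hd'⟩ := T.exists_fwd_at j h2
      exact ⟨d, 0, hd, by simp, by rw [pt_zero, hd']⟩
    · rcases T.all_vis (e, false) with h | h
      · exact ⟨(e, false), x, h, hx1, by simp [pt]⟩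
      · refine ⟨(e, true), unitInterval.symm x, h, ?_, by simp [pt]⟩
        simp only [unitInterval.coe_symm_eq]
        linarith
  obtain ⟨d, x, hd, hx, rfl⟩ := goal
  obtain ⟨n, hn, rfl⟩ := red d hd
  exact ⟨n, x, hn, hx, rfl⟩

include T in
theorem homeo_circle (h2 : ∀ v, Fintype.card (HE s t v) = 2) : Nonempty (Gr s t ≃ₜ S1) := by
  obtain ⟨ψ, hc, hψ⟩ := T.exists_psi h2
  have hN : (0 : ℝ) < T.N := by exact_mod_cast T.N_pos
  have hval : ∀ (n : ℕ) (x : unitInterval), n < T.N → (x : ℝ) < 1 →
      fr (ψ (pt s t (T.nx^[n] T.d0) x)) = ((n : ℝ) + x) / T.N := by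
    intro n x hn hx
    have hn' : (n : ℝ) + 1 ≤ T.N := by exact_mod_cast hn
    refine fr_unique ?_ ?_ ?_
    · have := x.2.1
      positivity
    · rw [div_lt_one hN]
      linarith
    · rw [hψ _ _ ⟨n, rfl⟩, T.val_iter, ← AddCircle.coe_add]
      congr 1
      ring
  have hinj : Function.Injective ψ := by
    intro p q hpq
    obtain ⟨n, x, hn, hx, rfl⟩ := T.pt_surj h2 p
    obtain ⟨n', x', hn', hx', rfl⟩ := T.pt_surj h2 q
    have h1 := hval n x hn hx
    rw [hpq, hval n' x' hn' hx'] at h1
    have h3 : (n' : ℝ) + x' = n + x := by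
      field_simp at h1
      exact h1
    have hx0 := x.2.1
    have hx0' := x'.2.1
    have h4 : n' = n := by
      have e1 : (n' : ℝ) < n + 1 := by linarith
      have e2 : (n : ℝ) < n' + 1 := by linarith
      have e3 : n' < n + 1 := by exact_mod_cast e1
      have e4 : n < n' + 1 := by exact_mod_cast e2
      omega
    subst h4
    have : x = x' := Subtype.ext (by linarith)
    rw [this]
  have hsurj : Function.Surjective ψ := by
    intro θ
    have h0 := fr_nonneg θ
    have h1 := fr_lt_one θ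
    have hy0 : 0 ≤ fr θ * T.N := by positivity
    have hy1 : fr θ * T.N < T.N := by nlinarith
    have hf1 := Nat.floor_le hy0
    have hf2 := Nat.lt_floor_add_one (fr θ * T.N)
    have hfn : ⌊fr θ * T.N⌋₊ < T.N := by
      rw [Nat.floor_lt hy0]
      exact hy1
    refine ⟨pt s t (T.nx^[⌊fr θ * T.N⌋₊] T.d0)
      ⟨fr θ * T.N - ⌊fr θ * T.N⌋₊, by constructor <;> linarith⟩, ?_⟩
    have h3 := hval ⌊fr θ * T.N⌋₊ ⟨fr θ * T.N - ⌊fr θ * T.N⌋₊, by constructor <;> linarith⟩
      hfn (by simp only; linarith)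
    simp only [add_sub_cancel] at h3
    rw [mul_div_cancel_right₀ _ hN.ne'] at h3
    rw [← coe_fr (ψ _), h3, coe_fr]
  exact ⟨hc.homeoOfEquivCompactToT2 (f := Equiv.ofBijective ψ ⟨hinj, hsurj⟩)⟩

end Two

end

end Pool.Agent.Helper93
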