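import Pool.Agent.Helper93.Cycle

set_option autoImplicit false

open Topology

namespace Pool.Agent.Helper93

section

variable {ι κ X X' : Type} [TopologicalSpace X] [TopologicalSpace X']

/-- a homeomorphism of ordered configurations compatible with reordering descends -/
def uconfHomeo (h : Conf ι X ≃ₜ Conf κ X')
    (h1 : ∀ x y, uc x = uc y → uc (h x) = uc (h y))
    (h2 : ∀ x y, uc x = uc y → uc (h.symm x) = uc (h.symm y)) : UConf ι X ≃ₜ UConf κ X' where
  toFun := Quot.lift (fun x => uc (h x)) fun x y hxy => h1 x y (Quot.sound hxy)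
  invFun := Quot.lift (fun x => uc (h.symm x)) fun x y hxy => h2 x y (Quot.sound hxy)
  left_inv c := by
    obtain ⟨x, rfl⟩ := uc_surj c
    change uc (h.symm (h x)) = uc x
    rw [h.symm_apply_apply]
  right_inv c := by
    obtain ⟨x, rfl⟩ := uc_surj c
    change uc (h (h.symm x)) = uc x
    rw [h.apply_symm_apply]
  continuous_toFun := continuous_quot_lift _ (continuous_uc.comp h.continuous)
  continuous_invFun := continuous_quot_lift _ (continuous_uc.comp h.symm.continuous)

/-- reindexing -/
def uconfCongr (e : ι ≃ κ) : UConf ι X ≃ₜ UConf κ X :=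
  uconfHomeo
    { toFun := Conf.res e.symm e.symm.injective
      invFun := Conf.res e e.injective
      left_inv := fun x => Subtype.ext (by funext i; simp)
      right_inv := fun x => Subtype.ext (by funext i; simp)
      continuous_toFun := Conf.continuous_res _ _
      continuous_invFun := Conf.continuous_res _ _ }
    (fun x y h => by
      obtain ⟨σ, hσ⟩ := uc_eq_iff.1 h
      refine uc_eq_iff.2 ⟨(e.symm.trans σ).trans e, ?_⟩
      change y.1 ∘ e.symm = (x.1 ∘ e.symm) ∘ _
      rw [hσ]
      funext i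
      simp)
    (fun x y h => by
      obtain ⟨σ, hσ⟩ := uc_eq_iff.1 h
      refine uc_eq_iff.2 ⟨(e.trans σ).trans e.symm, ?_⟩
      change y.1 ∘ e = (x.1 ∘ e) ∘ _
      rw [hσ]
      funext i
      simp)

/-- changing the space -/
def uconfMap (e : X ≃ₜ X') : UConf ι X ≃ₜ UConf ι X' :=
  uconfHomeo
    { toFun := fun x => ⟨e ∘ x.1, e.injective.comp x.2⟩
      invFun := fun x => ⟨e.symm ∘ x.1, e.symm.injective.comp x.2⟩
      left_inv := fun x => Subtype.ext (by funext i; simp)
      right_inv := fun x => Subtype.ext (by funext i; simp)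
      continuous_toFun := Continuous.subtype_mk (continuous_pi fun i =>
        e.continuous.comp ((continuous_apply i).comp continuous_subtype_val)) _
      continuous_invFun := Continuous.subtype_mk (continuous_pi fun i =>
        e.symm.continuous.comp ((continuous_apply i).comp continuous_subtype_val)) _ }
    (fun x y h => by
      obtain ⟨σ, hσ⟩ := uc_eq_iff.1 h
      refine uc_eq_iff.2 ⟨σ, ?_⟩
      change e ∘ y.1 = (e ∘ x.1) ∘ _
      rw [hσ]
      rfl)
    (fun x y h => by
      obtain ⟨σ, hσ⟩ := uc_eq_iff.1 h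
      refine uc_eq_iff.2 ⟨σ, ?_⟩
      change e.symm ∘ y.1 = (e.symm ∘ x.1) ∘ _
      rw [hσ]
      rfl)

end

section

variable {a m : ℕ} {s t : Fin m → Fin a}

lemma card_HE_ne_zero [PreconnectedSpace (Gr s t)] (hm : 1 ≤ m) (v : Fin a) :
    Fintype.card (HE s t v) ≠ 0 := by
  intro h0
  have hempty := Fintype.card_eq_zero_iff.1 h0
  have hs : ∀ e, s e ≠ v := fun e he => hempty.false ⟨(e, false), by simpa using he⟩
  have ht : ∀ e, t e ≠ v := fun e he => hempty.false ⟨(e, true), by simpa using he⟩
  have hval : ∀ p : Gr s t, rr s t v p = 0 ∨ rr s t v p = 2 := by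
    refine gr_ind s t ?_ ?_
    · intro j
      simp only [rr, gLift_gv]
      split_ifs
      · left; rfl
      · right; rfl
    · intro e x
      right
      simp only [rr, gLift_ge]
      rw [if_neg (hs e), if_neg (ht e)]
      simp
  have h1 : rr s t v (gv s t v) = 0 := by simp [rr]
  have h2 : rr s t v (ge s t ⟨0, hm⟩ 0) = 2 := by
    simp only [rr, gLift_ge]
    rw [if_neg (hs _), if_neg (ht _)]
    simp
  have h3 : (1 : ℝ) ∈ Set.range (rr s t v) :=
    mem_range_of_exists_le_of_exists_ge (continuous_rr v) ⟨_, by rw [h1]; norm_num⟩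
      ⟨_, by rw [h2]; norm_num⟩
  obtain ⟨p, hp⟩ := h3
  rcases hval p with h | h
  · rw [h] at hp; norm_num at hp
  · rw [h] at hp; norm_num at hp

/-- Stabilisation is a homotopy monomorphism for suitable maps, for every connected graph. -/
theorem exists_hmono [PreconnectedSpace (Gr s t)] (hm : 1 ≤ m) {k : ℕ} (hk : 1 ≤ k) :
    ∃ f : C(UConf (Fin k) (Gr s t), UConf (Fin (k + 1)) (Gr s t)), HMono f := by
  classical
  by_cases h2 : ∀ v, Fintype.card (HE s t v) = 2
  · -- circle
    choose ot hot1 hot2 hot3 using other_exists s t h2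
    let T : Two s t := ⟨ot, hot1, hot2, hot3, (⟨0, hm⟩, false)⟩
    obtain ⟨e⟩ := T.homeo_circle h2
    obtain ⟨f, hf⟩ := circle_hmono (n := k) (by omega)
    let e1 : UConf (Fin k) (Gr s t) ≃ₜ UConf (Fin k) S1 := uconfMap e
    let e2 : UConf (Fin (k + 1)) S1 ≃ₜ UConf (Fin (k + 1)) (Gr s t) := uconfMap e.symm
    exact ⟨_, (HMono.of_homeo e2).comp (hf.comp (HMono.of_homeo e1))⟩
  · push Not at h2
    obtain ⟨v, hv⟩ := h2
    have hv0 := card_HE_ne_zero (s := s) (t := t) hm v
    have hmodel : Nonempty (LocalModel (HE s t v)) := by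
      by_cases h1 : Fintype.card (HE s t v) = 1
      · obtain ⟨h0, hh⟩ := Fintype.card_eq_one_iff.1 h1
        exact exists_model_one h0 hh
      · have h3 : 2 < Fintype.card (HE s t v) := by omega
        obtain ⟨h0, h1, h2, h01, h02, h12⟩ := Fintype.two_lt_card_iff.1 h3
        exact exists_model_three h0 h1 h2 h01 h02 h12
    obtain ⟨M⟩ := hmodel
    obtain ⟨n, rfl⟩ : ∃ n, k = n + 1 := ⟨k - 1, by omega⟩
    obtain ⟨D⟩ := StarChart.exists_insData (Fin n) (chartAt s t v) M
    have hD := D.hmono
    let e1 : UConf (Fin (n + 1)) (Gr s t) ≃ₜ UConf (Option (Fin n)) (Gr s t) :=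
      uconfCongr (finSuccEquiv n)
    let e2 : UConf (Option (Option (Fin n))) (Gr s t) ≃ₜ UConf (Fin (n + 1 + 1)) (Gr s t) :=
      uconfCongr (((finSuccEquiv (n + 1)).trans (Equiv.optionCongr (finSuccEquiv n))).symm)
    exact ⟨_, (HMono.of_homeo e2).comp (hD.comp (HMono.of_homeo e1))⟩

end

end Pool.Agent.Helper93
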