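import Pool.Agent.Helper93.Models

set_option autoImplicit false

open Topology

namespace Pool.Agent.Helper93

/-- the gluing relation of a graph -/
abbrev GRel {a m : ℕ} (s t : Fin m → Fin a) (p q : Fin a ⊕ (Fin m × unitInterval)) : Prop :=
  ∃ e : Fin m, (p = Sum.inr (e, 0) ∧ q = Sum.inl (s e)) ∨
            (p = Sum.inr (e, 1) ∧ q = Sum.inl (t e))

/-- the topological graph -/
abbrev Gr {a m : ℕ} (s t : Fin m → Fin a) := Quot (GRel s t)

section

variable {a m : ℕ} (s t : Fin m → Fin a)

/-- vertices -/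
def gv (j : Fin a) : Gr s t := Quot.mk _ (Sum.inl j)

/-- points on edges -/
def ge (e : Fin m) (x : unitInterval) : Gr s t := Quot.mk _ (Sum.inr (e, x))

lemma ge_zero (e : Fin m) : ge s t e 0 = gv s t (s e) := Quot.sound ⟨e, Or.inl ⟨rfl, rfl⟩⟩

lemma ge_one (e : Fin m) : ge s t e 1 = gv s t (t e) := Quot.sound ⟨e, Or.inr ⟨rfl, rfl⟩⟩

lemma continuous_ge (e : Fin m) : Continuous (ge s t e) := by
  unfold ge
  exact continuous_quot_mk.comp (by fun_prop)

lemma gr_ind {P : Gr s t → Prop} (h1 : ∀ j, P (gv s t j)) (h2 : ∀ e x, P (ge s t e x)) (p) :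
    P p := by
  induction p using Quot.ind with
  | mk p =>
    cases p with
    | inl j => exact h1 j
    | inr q => exact h2 q.1 q.2

/-- lifting functions to the graph -/
def gLift {T : Type} (f : Fin a → T) (g : Fin m → unitInterval → T)
    (h0 : ∀ e, g e 0 = f (s e)) (h1 : ∀ e, g e 1 = f (t e)) : Gr s t → T :=
  Quot.lift (Sum.elim f (fun p => g p.1 p.2)) (by
    rintro p q ⟨e, ⟨rfl, rfl⟩ | ⟨rfl, rfl⟩⟩
    · exact h0 e
    · exact h1 e)

variable {s t}

@[simp] lemma gLift_gv {T : Type} (f : Fin a → T) (g : Fin m → unitInterval → T)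
    (h0 : ∀ e, g e 0 = f (s e)) (h1 : ∀ e, g e 1 = f (t e)) (j : Fin a) :
    gLift s t f g h0 h1 (gv s t j) = f j := rfl

@[simp] lemma gLift_ge {T : Type} (f : Fin a → T) (g : Fin m → unitInterval → T)
    (h0 : ∀ e, g e 0 = f (s e)) (h1 : ∀ e, g e 1 = f (t e)) (e : Fin m) (x : unitInterval) :
    gLift s t f g h0 h1 (ge s t e x) = g e x := rfl

lemma continuous_gLift {T : Type} [TopologicalSpace T] (f : Fin a → T)
    (g : Fin m → unitInterval → T)
    (h0 : ∀ e, g e 0 = f (s e)) (h1 : ∀ e, g e 1 = f (t e)) (hg : ∀ e, Continuous (g e)) :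
    Continuous (gLift s t f g h0 h1) := by
  refine continuous_quot_lift _ ?_
  refine continuous_sum_dom.2 ⟨?_, ?_⟩
  · exact continuous_of_discreteTopology
  · refine continuous_prod_of_discrete_left.2 ?_
    intro e
    exact hg e


lemma ge_eq_gv_or (e : Fin m) (x : unitInterval) :
    (∃ j, ge s t e x = gv s t j) ∨ (0 < (x : ℝ) ∧ (x : ℝ) < 1) := by
  rcases lt_or_eq_of_le x.2.1 with h0 | h0
  · rcases lt_or_eq_of_le x.2.2 with h1 | h1
    · right
      exact ⟨h0, h1⟩
    · left
      have : x = 1 := Subtype.ext h1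
      exact ⟨t e, by rw [this]; exact ge_one s t e⟩
  · left
    have : x = 0 := Subtype.ext h0.symm
    exact ⟨s e, by rw [this]; exact ge_zero s t e⟩

lemma gr_cases (p : Gr s t) : (∃ j, p = gv s t j) ∨
    ∃ (e : Fin m) (x : unitInterval), 0 < (x : ℝ) ∧ (x : ℝ) < 1 ∧ p = ge s t e x := by
  revert p
  refine gr_ind s t (fun j => Or.inl ⟨j, rfl⟩) (fun e x => ?_)
  rcases ge_eq_gv_or (s := s) (t := t) e x with h | ⟨h0, h1⟩
  · exact Or.inl h
  · exact Or.inr ⟨e, x, h0, h1, rfl⟩

/-- coordinates -/
noncomputable def phi1 : Gr s t → (Fin a → ℝ) :=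
  gLift s t (fun j => Pi.single j 1)
    (fun e x => (1 - (x : ℝ)) • Pi.single (s e) 1 + (x : ℝ) • Pi.single (t e) 1)
    (fun e => by simp) (fun e => by simp)

/-- coordinates -/
noncomputable def phi2 : Gr s t → (Fin m → ℝ) :=
  gLift s t (fun _ => 0) (fun e x => Pi.single e ((x : ℝ) * (1 - x)))
    (fun e => by simp) (fun e => by simp)

/-- coordinates -/
noncomputable def phi3 : Gr s t → (Fin m → ℝ) :=
  gLift s t (fun _ => 0) (fun e x => Pi.single e ((x : ℝ) * (1 - x) * (2 * x - 1)))
    (fun e => by simp) (fun e => by simp)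

lemma continuous_phi1 : Continuous (phi1 : Gr s t → _) :=
  continuous_gLift _ _ _ _ fun e => by fun_prop

lemma continuous_phi2 : Continuous (phi2 : Gr s t → _) :=
  continuous_gLift _ _ _ _ fun e => (continuous_single e).comp (by fun_prop)

lemma continuous_phi3 : Continuous (phi3 : Gr s t → _) :=
  continuous_gLift _ _ _ _ fun e => (continuous_single e).comp (by fun_prop)

lemma phi_inj {p q : Gr s t} (h1 : phi1 p = phi1 q) (h2 : phi2 p = phi2 q)
    (h3 : phi3 p = phi3 q) : p = q := by
  rcases gr_cases p with ⟨j, rfl⟩ | ⟨e, x, hx0, hx1, rfl⟩ <;>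
    rcases gr_cases q with ⟨j', rfl⟩ | ⟨e', x', hx0', hx1', rfl⟩
  · have h : (Pi.single j 1 : Fin a → ℝ) = Pi.single j' 1 := h1
    have h' := congrFun h j
    rw [Pi.single_eq_same] at h'
    by_cases e : j = j'
    · rw [e]
    · rw [Pi.single_eq_of_ne e] at h'
      exact absurd h' one_ne_zero
  · have h : (0 : Fin m → ℝ) = Pi.single e' ((x' : ℝ) * (1 - x')) := h2
    have h' := congrFun h e'
    rw [Pi.single_eq_same] at h'
    have : 0 < (x' : ℝ) * (1 - x') := mul_pos hx0' (by linarith)
    rw [← h'] at this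
    exact absurd this (lt_irrefl _)
  · have h : Pi.single e ((x : ℝ) * (1 - x)) = (0 : Fin m → ℝ) := h2
    have h' := congrFun h e
    rw [Pi.single_eq_same] at h'
    have : 0 < (x : ℝ) * (1 - x) := mul_pos hx0 (by linarith)
    rw [h'] at this
    exact absurd this (lt_irrefl _)
  · have h : (Pi.single e ((x : ℝ) * (1 - x)) : Fin m → ℝ) = Pi.single e' ((x' : ℝ) * (1 - x')) :=
      h2
    have hg : (Pi.single e ((x : ℝ) * (1 - x) * (2 * x - 1)) : Fin m → ℝ)
      = Pi.single e' ((x' : ℝ) * (1 - x') * (2 * x' - 1)) := h3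
    have hpos : 0 < (x : ℝ) * (1 - x) := mul_pos hx0 (by linarith)
    have ee : e = e' := by
      by_contra hne
      have h' := congrFun h e
      rw [Pi.single_eq_same, Pi.single_eq_of_ne hne] at h'
      rw [h'] at hpos
      exact absurd hpos (lt_irrefl _)
    subst ee
    have h' := congrFun h e
    have hg' := congrFun hg e
    rw [Pi.single_eq_same, Pi.single_eq_same] at h' hg'
    rw [← h'] at hg'
    have hxx := mul_left_cancel₀ hpos.ne' hg'
    have : x = x' := Subtype.ext (by linarith)
    rw [this]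

instance instT2Gr : T2Space (Gr s t) := by
  have hinj : Function.Injective (fun p : Gr s t => (phi1 p, phi2 p, phi3 p)) := by
    intro p q h
    simp only [Prod.mk.injEq] at h
    exact phi_inj h.1 h.2.1 h.2.2
  exact T2Space.of_injective_continuous hinj
    (continuous_phi1.prodMk (continuous_phi2.prodMk continuous_phi3))


variable (s t) in
/-- half-edges at a vertex -/
abbrev HE (v : Fin a) := {h : Fin m × Bool // (if h.2 then t h.1 else s h.1) = v}

/-- bump -/
noncomputable def bump (y : ℝ) : ℝ := max 0 (min y (2 - y))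

lemma bump_of_mem {y : ℝ} (h0 : 0 ≤ y) (h1 : y ≤ 1) : bump y = y := by
  unfold bump
  rw [min_eq_left (by linarith), max_eq_right h0]

lemma bump_of_two_le {y : ℝ} (h : 2 ≤ y) : bump y = 0 := by
  unfold bump
  rw [min_eq_right (by linarith), max_eq_left (by linarith)]

lemma bump_zero : bump 0 = 0 := bump_of_mem le_rfl zero_le_one

lemma continuous_bump : Continuous bump := by
  unfold bump
  fun_prop

variable (s t) in
/-- the radius function of a vertex -/
noncomputable def rr (v : Fin a) : Gr s t → ℝ :=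
  gLift s t (fun j => if j = v then 0 else 2)
    (fun e x => min 2 (min (if s e = v then 6 * (x : ℝ) else 2)
      (if t e = v then 6 * (1 - (x : ℝ)) else 2)))
    (fun e => by
      simp only [Set.Icc.coe_zero]
      split_ifs <;> norm_num)
    (fun e => by
      simp only [Set.Icc.coe_one]
      split_ifs <;> norm_num)

lemma continuous_rr (v : Fin a) : Continuous (rr s t v) :=
  continuous_gLift _ _ _ _ fun e => by
    split_ifs <;> fun_prop

variable (s t) in
/-- the coordinates at a vertex -/
noncomputable def uu (v : Fin a) : Gr s t → (HE s t v → ℝ) :=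
  gLift s t (fun _ => 0)
    (fun e x h => if h.1.1 = e then bump (if h.1.2 then 6 * (1 - (x : ℝ)) else 6 * (x : ℝ)) else 0)
    (fun e => by
      funext h
      simp only [Set.Icc.coe_zero, Pi.zero_apply]
      split_ifs
      · exact bump_of_two_le (by norm_num)
      · rw [mul_zero]; exact bump_zero
      · rfl)
    (fun e => by
      funext h
      simp only [Set.Icc.coe_one, Pi.zero_apply]
      split_ifs
      · rw [sub_self, mul_zero]; exact bump_zero
      · exact bump_of_two_le (by norm_num)
      · rfl)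

lemma continuous_uu (v : Fin a) : Continuous (uu s t v) :=
  continuous_gLift _ _ _ _ fun e => by
    refine continuous_pi fun h => ?_
    split_ifs
    · exact continuous_bump.comp (by fun_prop)
    · exact continuous_bump.comp (by fun_prop)
    · exact continuous_const

/-- the legs -/
noncomputable def leg {v : Fin a} (h : HE s t v) (y : ℝ) : Gr s t :=
  ge s t h.1.1 (Set.projIcc 0 1 zero_le_one (if h.1.2 then 1 - y / 6 else y / 6))

lemma continuous_leg {v : Fin a} (h : HE s t v) : Continuous (leg h) := by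
  unfold leg
  refine (continuous_ge s t _).comp (continuous_projIcc.comp ?_)
  split_ifs <;> fun_prop

lemma leg_zero {v : Fin a} (h : HE s t v) : leg h 0 = gv s t v := by
  obtain ⟨⟨e, b⟩, h⟩ := h
  unfold leg
  cases b
  · simp only [Bool.false_eq_true, if_false, zero_div] at h ⊢
    rw [Set.projIcc_left, ← h]
    exact ge_zero s t e
  · simp only [if_true, zero_div, sub_zero] at h ⊢
    rw [Set.projIcc_right, ← h]
    exact ge_one s t e

lemma rr_leg {v : Fin a} (h : HE s t v) {y : ℝ} (h0 : 0 ≤ y) (h1 : y ≤ 1) :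
    rr s t v (leg h y) = y := by
  obtain ⟨⟨e, b⟩, h⟩ := h
  unfold leg
  cases b
  · simp only [Bool.false_eq_true, if_false] at h ⊢
    rw [Set.projIcc_of_mem _ (by constructor <;> linarith)]
    simp only [rr, gLift_ge]
    rw [if_pos h, show 6 * (y / 6) = y by ring]
    split_ifs
    · rw [min_eq_left (show y ≤ 6 * (1 - y / 6) by linarith), min_eq_right (by linarith)]
    · rw [min_eq_left (show y ≤ 2 by linarith), min_eq_right (by linarith)]
  · simp only [if_true] at h ⊢
    rw [Set.projIcc_of_mem _ (by constructor <;> linarith)]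
    simp only [rr, gLift_ge]
    rw [if_pos h, show 6 * (1 - (1 - y / 6)) = y by ring]
    split_ifs
    · rw [min_eq_right (show y ≤ 6 * (1 - y / 6) by linarith), min_eq_right (by linarith)]
    · rw [min_eq_right (show y ≤ 2 by linarith), min_eq_right (by linarith)]

lemma uu_leg {v : Fin a} (h : HE s t v) {y : ℝ} (h0 : 0 ≤ y) (h1 : y ≤ 1) :
    uu s t v (leg h y) = Pi.single h y := by
  funext h'
  by_cases hh : h' = h
  · subst hh
    rw [Pi.single_eq_same]
    obtain ⟨⟨e, b⟩, h⟩ := h'
    unfold leg
    cases b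
    · simp only [Bool.false_eq_true, if_false] at h ⊢
      rw [Set.projIcc_of_mem _ (by constructor <;> linarith)]
      simp only [uu, gLift_ge, if_true, Bool.false_eq_true, if_false]
      rw [show 6 * (y / 6) = y by ring]
      exact bump_of_mem h0 h1
    · simp only [if_true] at h ⊢
      rw [Set.projIcc_of_mem _ (by constructor <;> linarith)]
      simp only [uu, gLift_ge, if_true]
      rw [show 6 * (1 - (1 - y / 6)) = y by ring]
      exact bump_of_mem h0 h1
  · rw [Pi.single_eq_of_ne hh]
    obtain ⟨⟨e, b⟩, h⟩ := h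
    obtain ⟨⟨e', b'⟩, h'⟩ := h'
    unfold leg
    by_cases hee : e' = e
    · subst hee
      have hbb : b' ≠ b := by
        rintro rfl
        exact hh rfl
      cases b
      · cases b'
        · exact absurd rfl hbb
        · simp only [Bool.false_eq_true, if_false]
          rw [Set.projIcc_of_mem _ (by constructor <;> linarith)]
          simp only [uu, gLift_ge, if_true]
          exact bump_of_two_le (by linarith)
      · cases b'
        · simp only [if_true]
          rw [Set.projIcc_of_mem _ (by constructor <;> linarith)]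
          simp only [uu, gLift_ge, if_true, Bool.false_eq_true, if_false]
          exact bump_of_two_le (by linarith)
        · exact absurd rfl hbb
    · simp only [uu, gLift_ge]
      rw [if_neg hee]

lemma near_cases {v : Fin a} {p : Gr s t} (hp : rr s t v p ≤ 1) :
    p = gv s t v ∨ ∃ (h : HE s t v) (y : ℝ), 0 ≤ y ∧ y ≤ 1 ∧ p = leg h y := by
  refine gr_ind s t (P := fun p => rr s t v p ≤ 1 → (p = gv s t v ∨
    ∃ (h : HE s t v) (y : ℝ), 0 ≤ y ∧ y ≤ 1 ∧ p = leg h y)) ?_ ?_ p hp
  · intro j hj
    left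
    simp only [rr, gLift_gv] at hj
    split_ifs at hj with h
    · rw [h]
    · norm_num at hj
  · intro e x hx
    right
    simp only [rr, gLift_ge] at hx
    have h1 : min (if s e = v then 6 * (x : ℝ) else 2) (if t e = v then 6 * (1 - (x : ℝ)) else 2)
        ≤ 1 := by
      rcases min_le_iff.1 hx with h | h
      · norm_num at h
      · exact h
    rcases min_le_iff.1 h1 with h | h
    · split_ifs at h with hs
      · refine ⟨⟨(e, false), by simpa using hs⟩, 6 * (x : ℝ), by have := x.2.1; linarith, h, ?_⟩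
        unfold leg
        simp only [Bool.false_eq_true, if_false]
        rw [show 6 * (x : ℝ) / 6 = x by ring, Set.projIcc_val]
      · norm_num at h
    · split_ifs at h with hs
      · refine ⟨⟨(e, true), by simpa using hs⟩, 6 * (1 - (x : ℝ)), by have := x.2.2; linarith, h, ?_⟩
        unfold leg
        simp only [if_true]
        rw [show 1 - 6 * (1 - (x : ℝ)) / 6 = x by ring, Set.projIcc_val]
      · norm_num at h

open Classical in
/-- the inverse of the coordinates -/
noncomputable def LL {v : Fin a} (w : HE s t v → ℝ) : Gr s t :=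
  if hx : ∃ h, w h ≠ 0 then leg hx.choose (w hx.choose) else gv s t v

lemma LL_eq {v : Fin a} {w : HE s t v → ℝ} (hw : w ∈ Star (HE s t v)) {h : HE s t v}
    (hh : w h ≠ 0) : LL w = leg h (w h) := by
  have hx : ∃ h, w h ≠ 0 := ⟨h, hh⟩
  unfold LL
  rw [dif_pos hx]
  have : hx.choose = h := by
    by_contra hne
    rcases hw.2.1 _ _ hne with h1 | h1
    · exact hx.choose_spec h1
    · exact hh h1
  rw [this]

lemma LL_zero {v : Fin a} : LL (0 : HE s t v → ℝ) = gv s t v := by
  unfold LL
  rw [dif_neg (by simp)]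

lemma star_cases {H : Type} [Fintype H] [DecidableEq H] {w : H → ℝ} (hw : w ∈ Star H) :
    w = 0 ∨ ∃ h, w h ≠ 0 ∧ w = Pi.single h (w h) := by
  by_cases h : ∃ h, w h ≠ 0
  · obtain ⟨h, hh⟩ := h
    exact Or.inr ⟨h, hh, Star.eq_single hw hh⟩
  · left
    funext h'
    by_contra hne
    exact h ⟨h', hne⟩

lemma single_mem {H : Type} [Fintype H] [DecidableEq H] (h : H) {y : ℝ} (h0 : 0 ≤ y)
    (h1 : y ≤ 1) : (Pi.single h y : H → ℝ) ∈ Star H := by
  refine ⟨fun h' => ?_, fun h' h'' hne => ?_, ?_⟩
  · by_cases e : h' = h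
    · subst e; simpa using h0
    · simp [Pi.single_eq_of_ne e]
  · by_cases e : h' = h
    · right
      exact Pi.single_eq_of_ne (fun e' => hne (e.trans e'.symm)) _
    · left
      exact Pi.single_eq_of_ne e _
  · simpa using h1

lemma LL_single {v : Fin a} (h : HE s t v) {y : ℝ} (h0 : 0 ≤ y) (h1 : y ≤ 1) :
    LL (Pi.single h y) = leg h y := by
  by_cases hy : y = 0
  · subst hy
    rw [Pi.single_zero, LL_zero, leg_zero]
  · rw [LL_eq (single_mem h h0 h1) (h := h) (by simpa using hy), Pi.single_eq_same]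

lemma contLL {v : Fin a} : ContinuousOn (LL : (HE s t v → ℝ) → Gr s t) (Star (HE s t v)) := by
  intro w hw
  rcases star_cases hw with rfl | ⟨h, hh, -⟩
  · rw [ContinuousWithinAt, LL_zero]
    intro O hO
    rw [Filter.mem_map]
    have h1 : ∀ h : HE s t v, ∀ᶠ w in 𝓝 (0 : HE s t v → ℝ), leg h (w h) ∈ O := by
      intro h
      have hc : Continuous (fun w : HE s t v → ℝ => leg h (w h)) :=
        (continuous_leg h).comp (continuous_apply h)
      have := hc.tendsto 0
      simp only [Pi.zero_apply] at this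
      rw [leg_zero] at this
      exact this hO
    have h2 : ∀ᶠ w in 𝓝 (0 : HE s t v → ℝ), ∀ h, leg h (w h) ∈ O := Filter.eventually_all.2 h1
    have h3 := h2.filter_mono (nhdsWithin_le_nhds (s := Star (HE s t v)))
    have h4 : ∀ᶠ w in 𝓝[Star (HE s t v)] (0 : HE s t v → ℝ), w ∈ Star (HE s t v) :=
      self_mem_nhdsWithin
    filter_upwards [h3, h4] with w hw1 hw2
    rw [Set.mem_preimage]
    rcases star_cases hw2 with h0 | ⟨h, hh, -⟩
    · rw [h0, LL_zero]
      exact mem_of_mem_nhds hO
    · rw [LL_eq hw2 hh]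
      exact hw1 h
  · have hc : Continuous (fun w : HE s t v → ℝ => leg h (w h)) :=
      (continuous_leg h).comp (continuous_apply h)
    refine (hc.continuousWithinAt (s := Star (HE s t v)) (x := w)).congr_of_eventuallyEq ?_
      (LL_eq hw hh)
    have h1 : ∀ᶠ w' in 𝓝 w, w' h ≠ 0 :=
      (continuous_apply h).continuousAt.eventually_ne hh
    have h4 : ∀ᶠ w' in 𝓝[Star (HE s t v)] w, w' ∈ Star (HE s t v) := self_mem_nhdsWithin
    filter_upwards [h1.filter_mono nhdsWithin_le_nhds, h4] with w' hw1 hw2
    exact LL_eq hw2 hw1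

variable (s t) in
/-- the chart at a vertex -/
noncomputable def chartAt (v : Fin a) : StarChart (Gr s t) (HE s t v) where
  r := ⟨rr s t v, continuous_rr v⟩
  u := ⟨uu s t v, continuous_uu v⟩
  L := LL
  contL := contLL
  u_mem p hp := by
    change uu s t v p ∈ _
    rcases near_cases hp with rfl | ⟨h, y, h0, h1, rfl⟩
    · exact Star.zero_mem
    · rw [uu_leg h h0 h1]
      exact single_mem h h0 h1
  u_sum p hp := by
    change ∑ h, uu s t v p h = rr s t v p
    rcases near_cases hp with rfl | ⟨h, y, h0, h1, rfl⟩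
    · have e1 : uu s t v (gv s t v) = 0 := rfl
      have e2 : rr s t v (gv s t v) = 0 := by simp [rr]
      rw [e1, e2]
      simp
    · rw [uu_leg h h0 h1, rr_leg h h0 h1]
      simp
  L_u p hp := by
    change LL (uu s t v p) = p
    rcases near_cases hp with rfl | ⟨h, y, h0, h1, rfl⟩
    · exact LL_zero
    · rw [uu_leg h h0 h1]
      exact LL_single h h0 h1
  u_L w hw := by
    change uu s t v (LL w) = w
    rcases star_cases hw with rfl | ⟨h, hh, he⟩
    · rw [LL_zero]
      rfl
    · rw [LL_eq hw hh, uu_leg h (hw.1 h) (Star.le_one hw h)]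
      exact he.symm
  r_L w hw := by
    change rr s t v (LL w) = ∑ h, w h
    rcases star_cases hw with rfl | ⟨h, hh, he⟩
    · rw [LL_zero]
      simp [rr]
    · rw [LL_eq hw hh, rr_leg h (hw.1 h) (Star.le_one hw h)]
      conv_rhs => rw [he]
      simp

end

end Pool.Agent.Helper93
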