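import Mathlib

set_option autoImplicit false

open Topology

namespace Pool.Agent.Helper93

/-- homotopy monomorphisms (tested on small spaces) -/
def HMono {Y Z : Type} [TopologicalSpace Y] [TopologicalSpace Z] (f : C(Y, Z)) : Prop :=
  ∀ (V : Type) [TopologicalSpace V] (a b : C(V, Y)),
    (f.comp a).Homotopic (f.comp b) → a.Homotopic b

section

variable {Y Z Y' Z' : Type} [TopologicalSpace Y] [TopologicalSpace Z] [TopologicalSpace Y']
  [TopologicalSpace Z']

lemma HMono.of_left_inv {f : C(Y, Z)} (g : C(Z, Y)) (h : (g.comp f).Homotopic (.id Y)) :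
    HMono f := by
  intro V _ a b hab
  have h1 : ((g.comp f).comp a).Homotopic ((g.comp f).comp b) := by
    have := ContinuousMap.Homotopic.comp (ContinuousMap.Homotopic.refl g) hab
    simpa [ContinuousMap.comp_assoc] using this
  have h2 : ∀ c : C(V, Y), ((g.comp f).comp c).Homotopic c := by
    intro c
    have := ContinuousMap.Homotopic.comp h (ContinuousMap.Homotopic.refl c)
    simpa using this
  exact (h2 a).symm.trans (h1.trans (h2 b))

lemma HMono.comp {f : C(Y, Z)} {g : C(Z, Z')} (hg : HMono g) (hf : HMono f) :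
    HMono (g.comp f) := by
  intro V _ a b hab
  apply hf
  apply hg
  simpa [ContinuousMap.comp_assoc] using hab

lemma HMono.of_homeo (e : Y ≃ₜ Z) : HMono (⟨e, e.continuous⟩ : C(Y, Z)) := by
  refine HMono.of_left_inv ⟨e.symm, e.symm.continuous⟩ ?_
  have : ((⟨e.symm, e.symm.continuous⟩ : C(Z, Y)).comp (⟨e, e.continuous⟩ : C(Y, Z)))
      = .id Y := by
    ext y
    simp
  rw [this]

/-- The category part. -/
theorem HMono.cat {f : C(Y, Z)} (hf : HMono f) [Nonempty Y] (n : ℕ)
    (hZ : ∃ U : Fin (n + 1) → Set Z, (∀ i, IsOpen (U i)) ∧ (∀ z, ∃ i, z ∈ U i) ∧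
      ∀ i, ∃ H : unitInterval × Z → Z, ∃ z0 : Z,
        ContinuousOn H (Set.univ ×ˢ U i) ∧ ∀ z ∈ U i, H (0, z) = z ∧ H (1, z) = z0) :
    ∃ U : Fin (n + 1) → Set Y, (∀ i, IsOpen (U i)) ∧ (∀ y, ∃ i, y ∈ U i) ∧
      ∀ i, ∃ H : unitInterval × Y → Y, ∃ y0 : Y,
        ContinuousOn H (Set.univ ×ˢ U i) ∧ ∀ y ∈ U i, H (0, y) = y ∧ H (1, y) = y0 := by
  classical
  obtain ⟨U, hUo, hUc, hU⟩ := hZ
  refine ⟨fun i => f ⁻¹' U i, fun i => (hUo i).preimage f.continuous, fun y => hUc (f y), ?_⟩
  intro i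
  obtain ⟨H, z0, hH, hH'⟩ := hU i
  by_cases hne : (f ⁻¹' U i).Nonempty
  · obtain ⟨y0, hy0⟩ := hne
    let V := {y : Y // y ∈ f ⁻¹' U i}
    let a : C(V, Y) := ⟨Subtype.val, continuous_subtype_val⟩
    let b : C(V, Y) := .const V y0
    have hHc : Continuous (fun p : unitInterval × V => H (p.1, f (a p.2))) := by
      rw [← continuousOn_univ]
      refine hH.comp (Continuous.continuousOn (by fun_prop)) ?_
      rintro ⟨t, v⟩ _
      exact Set.mk_mem_prod (Set.mem_univ _) v.2
    have h1 : (f.comp a).Homotopic (.const V z0) := by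
      refine ⟨⟨⟨fun p => H (p.1, f (a p.2)), hHc⟩, ?_, ?_⟩⟩
      · intro v
        exact (hH' _ v.2).1
      · intro v
        exact (hH' _ v.2).2
    have h2 : (f.comp b).Homotopic (.const V z0) := by
      refine ⟨⟨⟨fun p => H (p.1, f y0), ?_⟩, ?_, ?_⟩⟩
      · have : Continuous (fun p : unitInterval × V => ((p.1, (⟨y0, hy0⟩ : V)) : unitInterval × V)) :=
          by fun_prop
        exact hHc.comp this
      · intro v
        exact (hH' _ hy0).1
      · intro v
        exact (hH' _ hy0).2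
    obtain ⟨G⟩ := hf V a b (h1.trans h2.symm)
    refine ⟨fun p => if h : p.2 ∈ f ⁻¹' U i then G (p.1, ⟨p.2, h⟩) else p.2, y0, ?_, ?_⟩
    · rw [continuousOn_iff_continuous_domRestrict]
      have hp : ∀ p : (Set.univ ×ˢ (f ⁻¹' U i) : Set (unitInterval × Y)), p.1.2 ∈ f ⁻¹' U i :=
        fun p => (Set.mem_prod.1 p.2).2
      have hc : Continuous (fun p : (Set.univ ×ˢ (f ⁻¹' U i) : Set (unitInterval × Y)) =>
          G (p.1.1, (⟨p.1.2, hp p⟩ : V))) := by
        refine G.continuous.comp ?_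
        fun_prop
      refine hc.congr fun p => ?_
      change _ = (if h : p.1.2 ∈ f ⁻¹' U i then G (p.1.1, ⟨p.1.2, h⟩) else p.1.2)
      rw [dif_pos (hp p)]
    · intro y hy
      have hy' : y ∈ f ⁻¹' U i := hy
      constructor
      · simp only
        rw [dif_pos hy', G.apply_zero]
        rfl
      · simp only
        rw [dif_pos hy', G.apply_one]
        rfl
  · obtain ⟨y0⟩ := ‹Nonempty Y›
    rw [Set.not_nonempty_iff_eq_empty] at hne
    refine ⟨fun p => p.2, y0, continuous_snd.continuousOn, ?_⟩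
    intro y hy
    have hy' : y ∈ f ⁻¹' U i := hy
    rw [hne] at hy'
    exact absurd hy' (Set.notMem_empty y)

/-- concatenating a finite chain of homotopies -/
lemma chain_homotopy {V : Type} [TopologicalSpace V] (g : ℕ → C(V, Y)) (N : ℕ)
    (h : ∀ j < N, (g j).Homotopic (g (j + 1))) :
    ∃ Φ : C(ℝ × V, Y), (∀ j ≤ N, ∀ v, Φ ((j : ℝ), v) = g j v) ∧
      ∀ x : ℝ, (N : ℝ) ≤ x → ∀ v, Φ (x, v) = g N v := by
  induction N with
  | zero =>
    refine ⟨⟨fun p => g 0 p.2, by fun_prop⟩, ?_, ?_⟩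
    · intro j hj v
      obtain rfl : j = 0 := by omega
      rfl
    · intro x _ v
      rfl
  | succ N ih =>
    obtain ⟨Φ, h1, h2⟩ := ih (fun j hj => h j (by omega))
    obtain ⟨G⟩ := h N (by omega)
    refine ⟨⟨fun p => if p.1 ≤ (N : ℝ) then Φ p
      else G (Set.projIcc (0 : ℝ) 1 zero_le_one (p.1 - N), p.2), ?_⟩, ?_, ?_⟩
    · refine Continuous.if_le (by fun_prop) ?_ continuous_fst continuous_const ?_
      · refine G.continuous.comp ?_
        refine Continuous.prodMk ?_ continuous_snd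
        exact continuous_projIcc.comp (by fun_prop)
      · rintro ⟨x, v⟩ hx
        simp only at hx
        subst hx
        simp only [sub_self]
        rw [Set.projIcc_left]
        rw [h2 _ le_rfl]
        exact (G.apply_zero v).symm
    · intro j hj v
      by_cases hjN : j ≤ N
      · have : (j : ℝ) ≤ (N : ℝ) := by exact_mod_cast hjN
        simp only [ContinuousMap.coe_mk]
        rw [if_pos this]
        exact h1 j hjN v
      · obtain rfl : j = N + 1 := by omega
        have : ¬ (((N + 1 : ℕ) : ℝ) ≤ (N : ℝ)) := by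
          push_cast
          linarith
        simp only [ContinuousMap.coe_mk]
        rw [if_neg this]
        have h3 : ((N + 1 : ℕ) : ℝ) - N = 1 := by push_cast; ring
        rw [h3, Set.projIcc_right]
        exact G.apply_one v
    · intro x hx v
      have : ¬ (x ≤ (N : ℝ)) := by
        push_cast at hx
        linarith
      simp only [ContinuousMap.coe_mk]
      rw [if_neg this]
      rw [Set.projIcc_of_right_le _ (by push_cast at hx; linarith)]
      exact G.apply_one v

/-- The topological complexity part. -/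
theorem HMono.tc {f : C(Y, Z)} (hf : HMono f) (n r : ℕ) (hr : 2 ≤ r)
    (hZ : ∃ U : Fin (n + 1) → Set (Fin r → Z), (∀ i, IsOpen (U i)) ∧ (∀ z, ∃ i, z ∈ U i) ∧
      ∀ i, ∃ σ : (Fin r → Z) → C(Set.Icc (0:ℝ) 1, Z), ContinuousOn σ (U i) ∧
        ∀ z ∈ U i, ∀ j : Fin r,
          σ z (Set.projIcc (0:ℝ) 1 zero_le_one ((j : ℝ) / ((r : ℝ) - 1))) = z j) :
    ∃ U : Fin (n + 1) → Set (Fin r → Y), (∀ i, IsOpen (U i)) ∧ (∀ y, ∃ i, y ∈ U i) ∧
      ∀ i, ∃ σ : (Fin r → Y) → C(Set.Icc (0:ℝ) 1, Y), ContinuousOn σ (U i) ∧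
        ∀ y ∈ U i, ∀ j : Fin r,
          σ y (Set.projIcc (0:ℝ) 1 zero_le_one ((j : ℝ) / ((r : ℝ) - 1))) = y j := by
  classical
  obtain ⟨U, hUo, hUc, hU⟩ := hZ
  have hfr : Continuous (fun y : Fin r → Y => (fun j => f (y j) : Fin r → Z)) := by fun_prop
  refine ⟨fun i => (fun y : Fin r → Y => (fun j => f (y j) : Fin r → Z)) ⁻¹' U i,
    fun i => (hUo i).preimage hfr, fun y => hUc _, ?_⟩
  intro i
  obtain ⟨σ, hσ, hσ'⟩ := hU i
  have hr1 : (0 : ℝ) < (r : ℝ) - 1 := by
    have : (2 : ℝ) ≤ r := by exact_mod_cast hr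
    linarith
  let W : Set (Fin r → Y) := (fun y : Fin r → Y => (fun j => f (y j) : Fin r → Z)) ⁻¹' U i
  let V := {y : Fin r → Y // y ∈ W}
  let g : ℕ → C(V, Y) := fun j => ⟨fun v => v.1 ⟨min j (r - 1), by omega⟩,
    (continuous_apply _).comp continuous_subtype_val⟩
  have hc : ∀ j < r - 1, (g j).Homotopic (g (j + 1)) := by
    intro j hj
    apply hf
    have hσc : Continuous (fun v : V => σ (fun j => f (v.1 j))) := by
      have h0 : Continuous (fun v : V => (⟨fun j => f (v.1 j), v.2⟩ : {z // z ∈ U i})) := by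
        refine Continuous.subtype_mk ?_ _
        exact hfr.comp continuous_subtype_val
      exact (continuousOn_iff_continuous_domRestrict.1 hσ).comp h0
    refine ⟨⟨⟨fun p => σ (fun j => f (p.2.1 j)) (Set.projIcc (0:ℝ) 1 zero_le_one
      (((j : ℝ) + p.1) / ((r : ℝ) - 1))), ?_⟩, ?_, ?_⟩⟩
    · have h1 : Continuous (fun p : unitInterval × V => σ (fun j => f (p.2.1 j))) :=
        hσc.comp continuous_snd
      have h2 : Continuous (fun p : unitInterval × V => Set.projIcc (0:ℝ) 1 zero_le_one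
        (((j : ℝ) + p.1) / ((r : ℝ) - 1))) := continuous_projIcc.comp (by fun_prop)
      exact h1.eval h2
    · intro v
      have := hσ' _ v.2 ⟨j, by omega⟩
      simp only [ContinuousMap.coe_mk]
      have h3 : ((j : ℝ) + ((0 : unitInterval) : ℝ)) = (((⟨j, by omega⟩ : Fin r) : ℕ) : ℝ) := by
        simp
      rw [h3, this]
      have h4 : (⟨min j (r - 1), by omega⟩ : Fin r) = ⟨j, by omega⟩ := by
        apply Fin.ext
        simp only
        omega
      simp only [g, ContinuousMap.comp_apply, ContinuousMap.coe_mk]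
      rw [h4]
    · intro v
      have := hσ' _ v.2 ⟨j + 1, by omega⟩
      simp only [ContinuousMap.coe_mk]
      have h3 : ((j : ℝ) + ((1 : unitInterval) : ℝ)) = (((⟨j + 1, by omega⟩ : Fin r) : ℕ) : ℝ) := by
        simp
      rw [h3, this]
      have h4 : (⟨min (j + 1) (r - 1), by omega⟩ : Fin r) = ⟨j + 1, by omega⟩ := by
        apply Fin.ext
        simp only
        omega
      simp only [g, ContinuousMap.comp_apply, ContinuousMap.coe_mk]
      rw [h4]
  obtain ⟨Φ, hΦ, -⟩ := chain_homotopy g (r - 1) hc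
  let τ0 : C(V × Set.Icc (0:ℝ) 1, Y) := ⟨fun p => Φ (((r : ℝ) - 1) * p.2, p.1), by fun_prop⟩
  have hr0 : 0 < r := by omega
  refine ⟨fun y => if h : y ∈ W then τ0.curry ⟨y, h⟩ else .const _ (y ⟨0, hr0⟩), ?_, ?_⟩
  · rw [continuousOn_iff_continuous_domRestrict]
    refine τ0.curry.continuous.congr fun p => ?_
    change _ = (if h : p.1 ∈ W then τ0.curry ⟨p.1, h⟩ else .const _ (p.1 ⟨0, hr0⟩))
    rw [dif_pos p.2]
  · intro y hy j
    have hy' : y ∈ W := hy
    simp only
    rw [dif_pos hy']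
    simp only [τ0, ContinuousMap.curry_apply, ContinuousMap.coe_mk]
    have hj : ((j : ℕ) : ℝ) ≤ (r : ℝ) - 1 := by
      have : (j : ℕ) + 1 ≤ r := j.2
      have : (((j : ℕ) + 1 : ℕ) : ℝ) ≤ r := by exact_mod_cast this
      push_cast at this
      linarith
    have hmem : ((j : ℕ) : ℝ) / ((r : ℝ) - 1) ∈ Set.Icc (0 : ℝ) 1 := by
      constructor
      · positivity
      · rw [div_le_one hr1]
        exact hj
    rw [Set.projIcc_of_mem _ hmem]
    simp only
    rw [mul_div_cancel₀ _ hr1.ne']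
    have := hΦ j (by omega) ⟨y, hy'⟩
    rw [this]
    simp only [g, ContinuousMap.coe_mk]
    congr 1
    apply Fin.ext
    simp only
    omega

end

end Pool.Agent.Helper93
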