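import Pool.Agent.Helper93.ChartIns

set_option autoImplicit false

open Topology

namespace Pool.Agent.Helper93

section

variable {H : Type} [Fintype H]

/-- local model at a leaf -/
theorem exists_model_one (h0 : H) (hH : ∀ h, h = h0) : Nonempty (LocalModel H) := by
  have hsum : ∀ w : H → ℝ, ∑ h, w h = w h0 := by
    intro w
    refine Fintype.sum_eq_single h0 fun h hh => absurd (hH h) hh
  refine ⟨{ mx := ⟨fun p h => p.2 h + (p.1 : ℝ) * (1 - p.2 h) / 2, by fun_prop⟩
            mz := .const _ 0
            mx_mem := ?_, mx_zero := ?_, mx_bd := ?_, mz_mem := ?_, mz_bd := ?_, ne := ?_ }⟩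
  · rintro t w ⟨h1, h2, h3⟩
    rw [hsum] at h3
    have ht0 := t.2.1
    have ht1 := t.2.2
    refine ⟨fun h => ?_, fun h h' hne => absurd ((hH h).trans (hH h').symm) hne, ?_⟩
    · change 0 ≤ w h + (t : ℝ) * (1 - w h) / 2
      have := h1 h
      have h4 : w h ≤ 1 := by rw [hH h]; exact h3
      have : 0 ≤ (t : ℝ) * (1 - w h) := mul_nonneg ht0 (by linarith)
      linarith
    · rw [hsum]
      change w h0 + (t : ℝ) * (1 - w h0) / 2 ≤ 1
      have : (t : ℝ) * (1 - w h0) ≤ 1 * (1 - w h0) :=
        mul_le_mul_of_nonneg_right ht1 (by linarith)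
      linarith
  · intro w _
    funext h
    change w h + ((0 : unitInterval) : ℝ) * (1 - w h) / 2 = w h
    simp
  · intro t w _ hw
    rw [hsum] at hw
    funext h
    change w h + (t : ℝ) * (1 - w h) / 2 = w h
    rw [hH h, hw]
    simp
  · intro w _
    exact Star.zero_mem
  · intro w _ _
    rfl
  · rintro w ⟨h1, h2, h3⟩ he
    have h4 := congrFun he h0
    change w h0 + ((1 : unitInterval) : ℝ) * (1 - w h0) / 2 = 0 at h4
    have := h1 h0
    simp only [Set.Icc.coe_one, one_mul] at h4
    linarith

variable [DecidableEq H]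

lemma two_mem {h0 h1 : H} (hne : h0 ≠ h1) {x y : ℝ} (hx : 0 ≤ x) (hy : 0 ≤ y)
    (hxy : x = 0 ∨ y = 0) (hs : x + y ≤ 1) :
    (Pi.single h0 x + Pi.single h1 y : H → ℝ) ∈ Star H := by
  refine ⟨fun h => ?_, fun h h' hh => ?_, ?_⟩
  · simp only [Pi.add_apply]
    refine add_nonneg ?_ ?_
    · by_cases e : h = h0
      · subst e; simpa using hx
      · simp [Pi.single_eq_of_ne e]
    · by_cases e : h = h1
      · subst e; simpa using hy
      · simp [Pi.single_eq_of_ne e]
  · simp only [Pi.add_apply]
    rcases hxy with rfl | rfl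
    · simp only [Pi.single_zero, Pi.zero_apply, zero_add]
      by_cases e : h = h1
      · right
        exact Pi.single_eq_of_ne (fun e' => hh (e.trans e'.symm)) _
      · left
        exact Pi.single_eq_of_ne e _
    · simp only [Pi.single_zero, Pi.zero_apply, add_zero]
      by_cases e : h = h0
      · right
        exact Pi.single_eq_of_ne (fun e' => hh (e.trans e'.symm)) _
      · left
        exact Pi.single_eq_of_ne e _
  · simp only [Pi.add_apply, Finset.sum_add_distrib, Finset.sum_pi_single', Finset.mem_univ,
      if_true]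
    exact hs

lemma Star.eq_single {w : H → ℝ} (hw : w ∈ Star H) {h0 : H} (h : w h0 ≠ 0) :
    w = Pi.single h0 (w h0) := by
  funext h'
  by_cases e : h' = h0
  · subst e; simp
  · rw [Pi.single_eq_of_ne e]
    rcases hw.2.1 h' h0 e with h1 | h1
    · exact h1
    · exact absurd h1 h

omit [DecidableEq H] in
lemma Star.le_one {w : H → ℝ} (hw : w ∈ Star H) (h0 : H) : w h0 ≤ 1 :=
  (Finset.single_le_sum (fun h _ => hw.1 h) (Finset.mem_univ h0)).trans hw.2.2

/-- the motion parameter -/
def gg (t s : ℝ) : ℝ := s * (1 - 4 * t * (1 - s))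

/-- the second motion parameter -/
noncomputable def kk (σ s : ℝ) : ℝ := (1 / 2) * (1 - σ) * (1 - 3 * s)

/-- local model at a vertex of degree at least three -/
theorem exists_model_three (h0 h1 h2 : H) (h01 : h0 ≠ h1) (h02 : h0 ≠ h2) (h12 : h1 ≠ h2) :
    Nonempty (LocalModel H) := by
  let MX : unitInterval × (H → ℝ) → (H → ℝ) := fun p =>
    p.2 - Pi.single h0 (p.2 h0) + (Pi.single h0 (max (gg p.1 (p.2 h0)) 0)
      + Pi.single h1 (max (-gg p.1 (p.2 h0)) 0))
  let MZ : (H → ℝ) → (H → ℝ) := fun w =>
    Pi.single h0 (max (kk (∑ h, w h) (w h0)) 0) + Pi.single h2 (max (-kk (∑ h, w h) (w h0)) 0)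
  have hgg : Continuous (fun p : ℝ × ℝ => gg p.1 p.2) := by unfold gg; fun_prop
  have hkk : Continuous (fun p : ℝ × ℝ => kk p.1 p.2) := by unfold kk; fun_prop
  have hMX : Continuous MX := by
    have e1 : Continuous (fun p : unitInterval × (H → ℝ) => gg p.1 (p.2 h0)) :=
      hgg.comp (by fun_prop : Continuous (fun p : unitInterval × (H → ℝ) => ((p.1 : ℝ), p.2 h0)))
    refine Continuous.add (Continuous.sub continuous_snd ?_) (Continuous.add ?_ ?_)
    · exact (continuous_single h0).comp (by fun_prop)
    · exact (continuous_single h0).comp (e1.max continuous_const)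
    · exact (continuous_single h1).comp (e1.neg.max continuous_const)
  have hMZ : Continuous MZ := by
    have e1 : Continuous (fun w : H → ℝ => kk (∑ h, w h) (w h0)) :=
      hkk.comp (by fun_prop : Continuous (fun w : H → ℝ => (∑ h, w h, w h0)))
    refine Continuous.add ?_ ?_
    · exact (continuous_single h0).comp (e1.max continuous_const)
    · exact (continuous_single h2).comp (e1.neg.max continuous_const)
  have mx0 : ∀ t : unitInterval, ∀ w : H → ℝ, w h0 = 0 → MX (t, w) = w := by
    intro t w hw
    simp [MX, hw, gg]
  have mx1 : ∀ t : unitInterval, ∀ w ∈ Star H, w h0 ≠ 0 → MX (t, w) =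
      Pi.single h0 (max (gg t (w h0)) 0) + Pi.single h1 (max (-gg t (w h0)) 0) := by
    intro t w hw h
    have := Star.eq_single hw h
    simp only [MX]
    rw [← this]
    simp
  refine ⟨{ mx := ⟨MX, hMX⟩
            mz := ⟨MZ, hMZ⟩
            mx_mem := ?_, mx_zero := ?_, mx_bd := ?_, mz_mem := ?_, mz_bd := ?_, ne := ?_ }⟩
  · intro t w hw
    change MX (t, w) ∈ Star H
    by_cases h : w h0 = 0
    · rw [mx0 t w h]
      exact hw
    · rw [mx1 t w hw h]
      have hs0 := hw.1 h0
      have hs1 := Star.le_one hw h0
      have ht0 := t.2.1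
      have ht1 := t.2.2
      refine two_mem h01 (le_max_right _ _) (le_max_right _ _) ?_ ?_
      · rcases le_total (gg t (w h0)) 0 with h | h
        · left; exact max_eq_right h
        · right; exact max_eq_right (by linarith)
      · have hup : gg t (w h0) ≤ 1 := by
          unfold gg
          have : 0 ≤ (t : ℝ) * (1 - w h0) := mul_nonneg ht0 (by linarith)
          nlinarith
        have hlo : -1 ≤ gg t (w h0) := by
          unfold gg
          have e1 : (t : ℝ) * (1 - w h0) ≤ 1 - w h0 := by nlinarith
          have e2 : w h0 * (1 - 4 * (1 - w h0)) ≤ w h0 * (1 - 4 * t * (1 - w h0)) := by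
            apply mul_le_mul_of_nonneg_left _ hs0
            linarith
          nlinarith [sq_nonneg (w h0 - 3 / 8)]
        rcases le_total (gg t (w h0)) 0 with h | h
        · rw [max_eq_right h, max_eq_left (by linarith)]
          linarith
        · rw [max_eq_left h, max_eq_right (by linarith)]
          linarith
  · intro w hw
    change MX (0, w) = w
    by_cases h : w h0 = 0
    · exact mx0 0 w h
    · rw [mx1 0 w hw h]
      have : gg ((0 : unitInterval) : ℝ) (w h0) = w h0 := by simp [gg]
      rw [this, max_eq_left (hw.1 h0), max_eq_right (by have := hw.1 h0; linarith)]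
      rw [Pi.single_zero, add_zero]
      exact (Star.eq_single hw h).symm
  · intro t w hw hs
    change MX (t, w) = w
    by_cases h : w h0 = 0
    · exact mx0 t w h
    · rw [mx1 t w hw h]
      have h1 : w h0 = 1 := by
        have := Star.eq_single hw h
        rw [this] at hs
        simpa using hs
      have : gg (t : ℝ) (w h0) = 1 := by rw [h1]; simp [gg]
      rw [this, max_eq_left zero_le_one, max_eq_right (by norm_num)]
      rw [Pi.single_zero, add_zero]
      conv_rhs => rw [Star.eq_single hw h, h1]
  · intro w hw
    change MZ w ∈ Star H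
    have hs0 := hw.1 h0
    have hs1 := Star.le_one hw h0
    have hS0 : 0 ≤ ∑ h, w h := Finset.sum_nonneg fun h _ => hw.1 h
    have hS1 := hw.2.2
    refine two_mem h02 (le_max_right _ _) (le_max_right _ _) ?_ ?_
    · rcases le_total (kk (∑ h, w h) (w h0)) 0 with h | h
      · left; exact max_eq_right h
      · right; exact max_eq_right (by linarith)
    · have hup : kk (∑ h, w h) (w h0) ≤ 1 := by unfold kk; nlinarith
      have hlo : -1 ≤ kk (∑ h, w h) (w h0) := by unfold kk; nlinarith
      rcases le_total (kk (∑ h, w h) (w h0)) 0 with h | h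
      · rw [max_eq_right h, max_eq_left (by linarith)]
        linarith
      · rw [max_eq_left h, max_eq_right (by linarith)]
        linarith
  · intro w hw hs
    change MZ w = 0
    simp only [MZ]
    rw [hs]
    simp [kk]
  · intro w hw he
    change MX (1, w) = MZ w at he
    have hs0 := hw.1 h0
    have hs1 := Star.le_one hw h0
    by_cases h : w h0 = 0
    · rw [mx0 1 w h] at he
      have e0 := congrFun he h0
      simp only [MZ, Pi.add_apply, Pi.single_eq_same, Pi.single_eq_of_ne h02, add_zero] at e0
      rw [h] at e0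
      have hle : kk (∑ h, w h) 0 ≤ 0 := by
        by_contra hneg
        rw [not_le] at hneg
        rw [max_eq_left hneg.le] at e0
        linarith
      have hS1 := hw.2.2
      have hS : ∑ h, w h = 1 := by
        unfold kk at hle
        linarith
      have hz : w = 0 := by
        rw [he]
        simp only [MZ]
        rw [hS]
        simp [kk]
      rw [hz] at hS
      simp at hS
    · rw [mx1 1 w hw h] at he
      have hS : ∑ h, w h = w h0 := by
        conv_lhs => rw [Star.eq_single hw h]
        simp
      have hpos : 0 < w h0 := lt_of_le_of_ne hs0 (Ne.symm h)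
      have e0 := congrFun he h0
      have e1 := congrFun he h1
      have e2 := congrFun he h2
      simp only [MZ, Pi.add_apply, Pi.single_eq_same, Pi.single_eq_of_ne h02,
        Pi.single_eq_of_ne h01, add_zero, Set.Icc.coe_one] at e0
      simp only [MZ, Pi.add_apply, Pi.single_eq_same, Pi.single_eq_of_ne h01.symm,
        Pi.single_eq_of_ne h12, add_zero, zero_add, Set.Icc.coe_one] at e1
      simp only [MZ, Pi.add_apply, Pi.single_eq_same, Pi.single_eq_of_ne h02.symm,
        Pi.single_eq_of_ne h12.symm, zero_add, Set.Icc.coe_one] at e2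
      rw [hS] at e0 e2
      have hg : 0 ≤ gg 1 (w h0) := by
        by_contra hneg
        rw [not_le] at hneg
        rw [max_eq_left (by linarith)] at e1
        linarith
      have hk : 0 ≤ kk (w h0) (w h0) := by
        by_contra hneg
        rw [not_le] at hneg
        rw [max_eq_left (by linarith)] at e2
        linarith
      rw [max_eq_left hg, max_eq_left hk] at e0
      unfold gg at e0 hg
      unfold kk at e0 hk
      have h34 : 3 / 4 ≤ w h0 := by
        by_contra hlt
        rw [not_le] at hlt
        nlinarith
      have h11 : w h0 = 1 := by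
        by_contra hne1
        have hlt : w h0 < 1 := lt_of_le_of_ne hs1 hne1
        nlinarith
      rw [h11] at e0
      norm_num at e0

end

end Pool.Agent.Helper93
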