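import Pool.Agent.Helper93.Conf
import Pool.Agent.Helper93.HMono

set_option autoImplicit false

open Topology

namespace Pool.Agent.Helper93

lemma exists_optionCongr {α : Type} (e : Equiv.Perm (Option α)) (h : e none = none) :
    ∃ σ : Equiv.Perm α, e = σ.optionCongr := by
  refine ⟨Equiv.removeNone e, ?_⟩
  ext1 x
  cases x with
  | none => simp [h]
  | some x =>
    have hx : ∃ x', e (some x) = some x' := by
      rw [← Option.ne_none_iff_exists']
      intro hn
      rw [← h] at hn
      exact Option.some_ne_none _ (e.injective hn)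
    rw [Equiv.optionCongr_apply, Option.map_some, Equiv.removeNone_some e hx]

/-- pulling back an open map gives an open map -/
lemma isOpenMap_pullback {V T B : Type} [TopologicalSpace V] [TopologicalSpace T]
    [TopologicalSpace B] {p : T → B} (hp : IsOpenMap p) {a : V → B} (ha : Continuous a) :
    IsOpenMap (fun w : {w : V × T // p w.2 = a w.1} => w.1.1) := by
  intro O hO
  rw [isOpen_iff_mem_nhds]
  rintro _ ⟨w, hw, rfl⟩
  rw [isOpen_induced_iff] at hO
  obtain ⟨O', hO', rfl⟩ := hO
  obtain ⟨A, B', hA, hB, hwA, hwB, hAB⟩ := isOpen_prod_iff.1 hO' w.1.1 w.1.2 hw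
  have hopen : IsOpen (A ∩ a ⁻¹' (p '' B')) := hA.inter ((hp _ hB).preimage ha)
  refine Filter.mem_of_superset (hopen.mem_nhds ⟨hwA, ⟨w.1.2, hwB, w.2⟩⟩) ?_
  rintro v ⟨hvA, x, hxB, hx⟩
  exact ⟨⟨(v, x), hx⟩, hAB ⟨hvA, hxB⟩, rfl⟩

lemma mkHW {A B : Type} [TopologicalSpace A] [TopologicalSpace B] (F : C(unitInterval × A, B))
    (f₀ f₁ : C(A, B)) (h0 : ∀ a, F (0, a) = f₀ a) (h1 : ∀ a, F (1, a) = f₁ a)
    (P : C(A, B) → Prop) (hP : ∀ t, P ⟨fun a => F (t, a), by fun_prop⟩) :
    f₀.HomotopicWith f₁ P :=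
  ⟨{ toFun := F, continuous_toFun := F.continuous, map_zero_left := h0, map_one_left := h1,
     prop' := hP }⟩

/-- descending a continuous family along jointly surjective open maps -/
lemma descend {V T J : Type} [TopologicalSpace V] [TopologicalSpace T] (E : J → Type)
    [∀ j, TopologicalSpace (E j)] (q : ∀ j, E j → V) (hq : ∀ j, IsOpenMap (q j))
    (hs : ∀ v, ∃ j, ∃ w, q j w = v) (G : ∀ j, unitInterval × E j → T) (hG : ∀ j, Continuous (G j))
    (hc : ∀ j j' w w' t, q j w = q j' w' → G j (t, w) = G j' (t, w')) :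
    ∃ G' : C(unitInterval × V, T), ∀ j t w, G' (t, q j w) = G j (t, w) := by
  classical
  choose j w hw using hs
  have key : ∀ j' t w', G (j (q j' w')) (t, w (q j' w')) = G j' (t, w') :=
    fun j' t w' => hc _ _ _ _ t (hw _)
  refine ⟨⟨fun p => G (j p.2) (p.1, w p.2), ?_⟩, fun j' t w' => key j' t w'⟩
  rw [continuous_def]
  intro O hO
  have : (fun p : unitInterval × V => G (j p.2) (p.1, w p.2)) ⁻¹' O
      = ⋃ j', (Prod.map id (q j')) '' (G j' ⁻¹' O) := by
    ext ⟨t, v⟩
    simp only [Set.mem_preimage, Set.mem_iUnion, Set.mem_image, Prod.exists, Prod.map_apply, id_eq,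
      Prod.mk.injEq]
    constructor
    · intro h
      exact ⟨j v, t, w v, h, rfl, hw v⟩
    · rintro ⟨j', t', w', h, rfl, rfl⟩
      rw [key]
      exact h
  rw [this]
  exact isOpen_iUnion fun j' => (IsOpenMap.id.prodMap (hq j')) _ (hO.preimage (hG j'))

/-- Insertion data: adding a marked point, compatibly with deletions. -/
structure InsData (ι X : Type) [TopologicalSpace X] where
  ins : C(Conf ι X, Conf (Option ι) X)
  insK : C(Conf (Option ι) X, Conf (Option (Option ι)) X)
  ins_perm : ∀ (σ : Equiv.Perm ι) (x y : Conf ι X), y.1 = x.1 ∘ σ →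
    (ins y).1 = (ins x).1 ∘ Equiv.optionCongr σ
  insK_perm : ∀ (σ : Equiv.Perm (Option ι)) (x y : Conf (Option ι) X), y.1 = x.1 ∘ σ →
    (insK y).1 = (insK x).1 ∘ Equiv.optionCongr σ
  G : C(unitInterval × Conf (Option ι) X, Conf (Option ι) X)
  G_zero : ∀ x, G (0, x) = x
  G_one : ∀ x, (G (1, x)).1 = (insK x).1 ∘ some
  G_perm : ∀ (t : unitInterval) (σ : Equiv.Perm (Option ι)) (x y : Conf (Option ι) X), y.1 = x.1 ∘ σ →
    (G (t, y)).1 = (G (t, x)).1 ∘ σ
  Q : C(unitInterval × Conf (Option ι) X, Conf (Option ι) X)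
  Q_zero : ∀ y, (Q (0, y)).1 = (insK y).1 ∘ Option.map some
  Q_one : ∀ y, Q (1, y) = ins (y.res some (Option.some_injective _))
  Q_perm : ∀ (t : unitInterval) (σ : Equiv.Perm ι) (x y : Conf (Option ι) X),
    y.1 = x.1 ∘ Equiv.optionCongr σ → (Q (t, y)).1 = (Q (t, x)).1 ∘ Equiv.optionCongr σ

namespace InsData

variable {ι X : Type} [TopologicalSpace X]

lemma insK_uc (D : InsData ι X) (σ : Equiv.Perm (Option ι)) (x y : Conf (Option ι) X)
    (h : y.1 = x.1 ∘ σ) : uc (D.insK x) = uc (D.insK y) :=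
  uc_eq_iff.2 ⟨_, D.insK_perm σ x y h⟩

/-- the induced map on unordered configurations -/
def F (D : InsData ι X) : C(UConf (Option ι) X, UConf (Option (Option ι)) X) :=
  umap D.insK D.insK_uc

@[simp] lemma F_uc (D : InsData ι X) (x : Conf (Option ι) X) : D.F (uc x) = uc (D.insK x) := rfl

end InsData

/-- the pullback of the ordered configuration cover -/
abbrev VT {V κ X : Type} [TopologicalSpace V] [TopologicalSpace X] (a : C(V, UConf κ X)) :=
  {w : V × Conf κ X // uc w.2 = a w.1}

/-- the pullback of two ordered configuration covers -/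
abbrev ET {V κ X : Type} [TopologicalSpace V] [TopologicalSpace X] (a b : C(V, UConf κ X)) :=
  {w : V × (Conf κ X × Conf κ X) // uc w.2.1 = a w.1 ∧ uc w.2.2 = b w.1}

section

variable {ι X V : Type} [TopologicalSpace X] [TopologicalSpace V] [Finite ι] [T2Space X]

lemma lift_exists (D : InsData ι X) (a b : C(V, UConf (Option ι) X))
    (H : (D.F.comp a).Homotopy (D.F.comp b)) :
    ∃ ht : C(unitInterval × VT a, Conf (Option (Option ι)) X),
      (∀ t w, uc (ht (t, w)) = H (t, w.1.1)) ∧ (∀ w, ht (0, w) = D.insK w.1.2) ∧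
      ∀ (t : unitInterval) (w w' : VT a) (σ : Equiv.Perm (Option ι)), w.1.1 = w'.1.1 →
        w'.1.2.1 = w.1.2.1 ∘ σ → (ht (t, w')).1 = (ht (t, w)).1 ∘ Equiv.optionCongr σ := by
  classical
  let Hc : C(unitInterval × VT a, UConf (Option (Option ι)) X) :=
    ⟨fun p => H (p.1, p.2.1.1), by fun_prop⟩
  let f0 : C(VT a, Conf (Option (Option ι)) X) := ⟨fun w => D.insK w.1.2, by fun_prop⟩
  have H0 : ∀ w, Hc (0, w) = uc (f0 w) := by
    intro w
    change H (0, w.1.1) = _
    rw [H.apply_zero]
    change D.F (a w.1.1) = _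
    rw [← w.2]
    rfl
  have cov : IsCoveringMap (uc : Conf (Option (Option ι)) X → UConf (Option (Option ι)) X) :=
    isCoveringMap_uc
  have h1 : ∀ t w, uc (cov.liftHomotopy Hc f0 H0 (t, w)) = H (t, w.1.1) := fun t w =>
    congrFun (cov.liftHomotopy_lifts Hc f0 H0) (t, w)
  have h2 : ∀ w, cov.liftHomotopy Hc f0 H0 (0, w) = D.insK w.1.2 := fun w =>
    cov.liftHomotopy_zero Hc f0 H0 w
  refine ⟨cov.liftHomotopy Hc f0 H0, h1, h2, ?_⟩
  intro t w w' σ hv hσ
  let ht := cov.liftHomotopy Hc f0 H0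
  have key : (fun t => ht (t, w'))
      = fun t => (ht (t, w)).res (Equiv.optionCongr σ) (Equiv.optionCongr σ).injective := by
    refine cov.eq_of_comp_eq (by fun_prop) ?_ ?_ 0 ?_
    · exact (Conf.continuous_res _ _).comp (by fun_prop)
    · funext t
      simp only [Function.comp_apply]
      rw [show uc (ht (t, w')) = H (t, w'.1.1) from h1 t w', ← hv,
        ← show uc (ht (t, w)) = H (t, w.1.1) from h1 t w]
      exact uc_eq_iff.2 ⟨Equiv.optionCongr σ, rfl⟩
    · rw [show ht (0, w') = D.insK w'.1.2 from h2 w', show ht (0, w) = D.insK w.1.2 from h2 w]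
      exact Subtype.ext (D.insK_perm σ _ _ hσ)
  have := congrFun key t
  exact congrArg Subtype.val this

end

/-- homotopies through maps compatible with a projection -/
def CHtp {A V κ X : Type} [TopologicalSpace A] [TopologicalSpace X] (q : A → V)
    (f g : C(A, Conf κ X)) : Prop :=
  f.HomotopicWith g (fun h => ∀ w w', q w = q w' → uc (h w) = uc (h w'))

section

variable {A V κ X : Type} [TopologicalSpace A] [TopologicalSpace X] {q : A → V}

lemma CHtp.symm {f g : C(A, Conf κ X)} (h : CHtp q f g) : CHtp q g f :=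
  ContinuousMap.HomotopicWith.symm h

lemma CHtp.trans {f g k : C(A, Conf κ X)} (h : CHtp q f g) (h' : CHtp q g k) : CHtp q f k :=
  ContinuousMap.HomotopicWith.trans h h'

lemma CHtp.mk' (F : C(unitInterval × A, Conf κ X)) (f g : C(A, Conf κ X))
    (h0 : ∀ a, F (0, a) = f a) (h1 : ∀ a, F (1, a) = g a)
    (hP : ∀ t w w', q w = q w' → ∃ σ : Equiv.Perm κ, (F (t, w')).1 = (F (t, w)).1 ∘ σ) :
    CHtp q f g :=
  mkHW F f g h0 h1 _ fun t w w' hw => uc_eq_iff.2 (hP t w w' hw)

end

section

variable {ι X V : Type} [TopologicalSpace X] [TopologicalSpace V]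

/-- the projection from the double cover to the single cover -/
def lproj {κ : Type} {a b : C(V, UConf κ X)} (w : ET a b) : VT a := ⟨(w.1.1, w.1.2.1), w.2.1⟩

lemma continuous_lproj {κ : Type} {a b : C(V, UConf κ X)} :
    Continuous (lproj : ET a b → VT a) := by
  unfold lproj
  fun_prop

/-- the part of the double cover where the end of the lift is matched by a permutation -/
abbrev Eτ (D : InsData ι X) (a b : C(V, UConf (Option ι) X))
    (ht : C(unitInterval × VT a, Conf (Option (Option ι)) X))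
    (τ : Equiv.Perm (Option (Option ι))) :=
  {w : ET a b // ht (1, lproj w) = (D.insK w.1.2.2).res τ τ.injective}

variable (D : InsData ι X) {a b : C(V, UConf (Option ι) X)}
    (ht : C(unitInterval × VT a, Conf (Option (Option ι)) X))
    (τ : Equiv.Perm (Option (Option ι)))

lemma isOpenMap_ET [Finite ι] [T2Space X] (a b : C(V, UConf (Option ι) X)) :
    IsOpenMap (fun w : ET a b => w.1.1) := by
  have h := isOpenMap_pullback (p := Prod.map (uc : Conf (Option ι) X → _)
    (uc : Conf (Option ι) X → _)) (isOpenMap_uc.prodMap isOpenMap_uc)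
    (a := fun v : V => (a v, b v)) (by fun_prop)
  let e : Homeomorph (ET a b) {w : V × (Conf (Option ι) X × Conf (Option ι) X) //
      Prod.map uc uc w.2 = (a w.1, b w.1)} :=
    (Homeomorph.refl (V × (Conf (Option ι) X × Conf (Option ι) X))).subtype (by
      intro w
      simp only [Homeomorph.refl_apply, Prod.map, Prod.mk.injEq, id_eq])
  exact h.comp e.isOpenMap

lemma isOpenMap_Eτ [Finite ι] [T2Space X]
    (hl : ∀ w : ET a b, uc (ht (1, lproj w)) = uc (D.insK w.1.2.2)) :
    IsOpenMap (fun w : Eτ D a b ht τ => w.1.1.1) := by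
  have cov : IsCoveringMap (uc : Conf (Option (Option ι)) X → UConf (Option (Option ι)) X) :=
    isCoveringMap_uc
  have hopen : IsOpen {w : ET a b | ht (1, lproj w) = (D.insK w.1.2.2).res τ τ.injective} := by
    refine cov.isLocalHomeomorph.isLocallyInjective.isOpen_eqLocus ?_ ?_ ?_
    · exact ht.continuous.comp (by have := continuous_lproj (a := a) (b := b); fun_prop)
    · exact (Conf.continuous_res _ _).comp (D.insK.continuous.comp (by fun_prop))
    · funext w
      simp only [Function.comp_apply]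
      rw [hl w]
      exact uc_eq_iff.2 ⟨τ, rfl⟩
  exact (isOpenMap_ET a b).comp hopen.isOpenMap_subtype_val


/-- the properties of the lift used below -/
structure LiftProps : Prop where
  uc_one : ∀ w : ET a b, uc (ht (1, lproj w)) = uc (D.insK w.1.2.2)
  zero : ∀ w, ht (0, w) = D.insK w.1.2
  perm : ∀ (t : unitInterval) (w w' : VT a) (σ : Equiv.Perm (Option ι)), w.1.1 = w'.1.1 →
        w'.1.2.1 = w.1.2.1 ∘ σ → (ht (t, w')).1 = (ht (t, w)).1 ∘ Equiv.optionCongr σ

variable {D ht τ}

/-- comparison of two points in a fibre -/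
lemma fib_gen (L : LiftProps D (b := b) ht) (τ' : Equiv.Perm (Option (Option ι)))
    (w : Eτ D a b ht τ) (w' : Eτ D a b ht τ')
    (hw : w.1.1.1 = w'.1.1.1) : ∃ σ₁ σ₂ : Equiv.Perm (Option ι),
      w'.1.1.2.1.1 = w.1.1.2.1.1 ∘ σ₁ ∧ w'.1.1.2.2.1 = w.1.1.2.2.1 ∘ σ₂ ∧
      ∀ i, τ (Equiv.optionCongr σ₁ i) = Equiv.optionCongr σ₂ (τ' i) := by
  obtain ⟨σ₁, h1⟩ := uc_eq_iff.1 (show uc w.1.1.2.1 = uc w'.1.1.2.1 by
    rw [w.1.2.1, w'.1.2.1, hw])
  obtain ⟨σ₂, h2⟩ := uc_eq_iff.1 (show uc w.1.1.2.2 = uc w'.1.1.2.2 by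
    rw [w.1.2.2, w'.1.2.2, hw])
  refine ⟨σ₁, σ₂, h1, h2, fun i => ?_⟩
  have e1 := L.perm 1 (lproj w.1) (lproj w'.1) σ₁ hw h1
  have e2 := D.insK_perm σ₂ _ _ h2
  have e3 := congrArg Subtype.val w.2
  have e4 := congrArg Subtype.val w'.2
  rw [Conf.res_val] at e3 e4
  have e5 := congrFun e1 i
  rw [e4, e3, e2] at e5
  simp only [Function.comp_apply] at e5
  exact ((D.insK w.1.1.2.2).2 e5).symm

lemma cover_cases [DecidableEq ι] (L : LiftProps D (b := b) ht) (v : V) :
    (∃ w : Eτ D a b ht 1, w.1.1.1 = v) ∨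
    (∃ w : Eτ D a b ht (Equiv.swap none (some none)), w.1.1.1 = v) := by
  obtain ⟨x, hx⟩ := uc_surj (a v)
  obtain ⟨y, hy⟩ := uc_surj (b v)
  let w0 : ET a b := ⟨(v, (x, y)), hx, hy⟩
  obtain ⟨τ, hτ⟩ := uc_eq_iff.1 (L.uc_one w0).symm
  -- reordering
  have reorder : ∀ (σ₁ σ₂ : Equiv.Perm (Option ι)) (τ' : Equiv.Perm (Option (Option ι))),
      (∀ i, τ (Equiv.optionCongr σ₁ i) = Equiv.optionCongr σ₂ (τ' i)) →
      ∃ w : Eτ D a b ht τ', w.1.1.1 = v := by
    intro σ₁ σ₂ τ' h
    let x' : Conf (Option ι) X := x.res σ₁ σ₁.injective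
    let y' : Conf (Option ι) X := y.res σ₂ σ₂.injective
    have hx' : uc x' = a v := by rw [← hx]; exact (uc_eq_iff.2 ⟨σ₁, rfl⟩).symm
    have hy' : uc y' = b v := by rw [← hy]; exact (uc_eq_iff.2 ⟨σ₂, rfl⟩).symm
    refine ⟨⟨⟨(v, (x', y')), hx', hy'⟩, ?_⟩, rfl⟩
    apply Subtype.ext
    rw [Conf.res_val]
    have e1 := L.perm 1 (lproj w0) (lproj (⟨(v, (x', y')), hx', hy'⟩ : ET a b)) σ₁ rfl rfl
    have e2 := D.insK_perm σ₂ y y' rfl
    rw [e1, hτ]
    change ((D.insK y).1 ∘ τ) ∘ _ = _
    rw [e2]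
    funext i
    simp only [Function.comp_apply]
    rw [h i]
  by_cases hn : τ none = none
  · left
    obtain ⟨σ, rfl⟩ := exists_optionCongr τ hn
    exact reorder 1 σ 1 (fun i => by simp)
  · right
    obtain ⟨k1, hk1⟩ : ∃ k1, τ⁻¹ none = some k1 := by
      rw [← Option.ne_none_iff_exists']
      intro h
      apply hn
      have h' := congrArg τ h
      simpa using h'.symm
    let σ₁ : Equiv.Perm (Option ι) := Equiv.swap none k1
    let e : Equiv.Perm (Option (Option ι)) :=
      τ * Equiv.optionCongr σ₁ * Equiv.swap none (some none)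
    have he : e none = none := by
      simp only [e, Equiv.Perm.mul_apply, Equiv.swap_apply_left, Equiv.optionCongr_apply,
        Option.map_some, σ₁]
      rw [← hk1]
      simp
    obtain ⟨σ₂, hσ₂⟩ := exists_optionCongr e he
    refine reorder σ₁ σ₂ _ (fun i => ?_)
    rw [← hσ₂]
    simp [e]

lemma cover_disj [DecidableEq ι] (L : LiftProps D (b := b) ht) (w : Eτ D a b ht 1)
    (w' : Eτ D a b ht (Equiv.swap none (some none))) : w.1.1.1 ≠ w'.1.1.1 := by
  intro h
  obtain ⟨σ₁, σ₂, -, -, h3⟩ := fib_gen L _ w w' h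
  have := h3 none
  simp at this

lemma fib_one (L : LiftProps D (b := b) ht) (w w' : Eτ D a b ht 1)
    (hw : w.1.1.1 = w'.1.1.1) : ∃ σ : Equiv.Perm (Option ι),
      w'.1.1.2.1.1 = w.1.1.2.1.1 ∘ σ ∧ w'.1.1.2.2.1 = w.1.1.2.2.1 ∘ σ := by
  obtain ⟨σ₁, σ₂, h1, h2, h3⟩ := fib_gen L _ w w' hw
  have : σ₁ = σ₂ := by
    apply Equiv.optionCongr_injective
    ext1 i
    simpa using h3 i
  subst this
  exact ⟨σ₁, h1, h2⟩

lemma fib_swap [DecidableEq ι] (L : LiftProps D (b := b) ht)
    (w w' : Eτ D a b ht (Equiv.swap none (some none)))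
    (hw : w.1.1.1 = w'.1.1.1) : ∃ σ : Equiv.Perm ι,
      w'.1.1.2.1.1 = w.1.1.2.1.1 ∘ Equiv.optionCongr σ ∧
      w'.1.1.2.2.1 = w.1.1.2.2.1 ∘ Equiv.optionCongr σ := by
  obtain ⟨σ₁, σ₂, h1, h2, h3⟩ := fib_gen L _ w w' hw
  have e2 : σ₂ none = none := by
    have := h3 none
    simp only [Equiv.optionCongr_apply, Option.map_none, Equiv.swap_apply_left,
      Option.map_some] at this
    exact (Option.some_injective _ this).symm
  have e1 : σ₁ none = none := by
    have := h3 (some none)
    simp only [Equiv.optionCongr_apply, Option.map_some, Equiv.swap_apply_right,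
      Option.map_none] at this
    have h4 := congrArg (Equiv.swap none (some none)) this
    simp only [Equiv.swap_apply_self, Equiv.swap_apply_left] at h4
    exact Option.some_injective _ h4
  obtain ⟨s₁, rfl⟩ := exists_optionCongr σ₁ e1
  obtain ⟨s₂, rfl⟩ := exists_optionCongr σ₂ e2
  have : s₁ = s₂ := by
    ext1 i
    have h4 := h3 (some (some i))
    have hne : ∀ j : ι, Equiv.swap none (some none) (some (some j) : Option (Option ι))
        = some (some j) := fun j => Equiv.swap_apply_of_ne_of_ne (by simp) (by simp)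
    simp only [Equiv.optionCongr_apply, Option.map_some, hne] at h4
    simpa using h4
  subst this
  exact ⟨s₁, h1, h2⟩


/-- the two orderings as continuous maps -/
def pX (τ : Equiv.Perm (Option (Option ι))) : C(Eτ D a b ht τ, Conf (Option ι) X) :=
  ⟨fun w => w.1.1.2.1, by fun_prop⟩

/-- the second ordering -/
def pY (τ : Equiv.Perm (Option (Option ι))) : C(Eτ D a b ht τ, Conf (Option ι) X) :=
  ⟨fun w => w.1.1.2.2, by fun_prop⟩

/-- the lift on the matched part -/
def pH (τ : Equiv.Perm (Option (Option ι))) :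
    C(unitInterval × Eτ D a b ht τ, Conf (Option (Option ι)) X) :=
  ⟨fun p => ht (p.1, lproj p.2.1), by
    have := continuous_lproj (a := a) (b := b)
    fun_prop⟩

/-- projection to the base -/
def pV (τ : Equiv.Perm (Option (Option ι))) (w : Eτ D a b ht τ) : V := w.1.1.1

lemma chain_one (L : LiftProps D (b := b) ht) :
    CHtp (pV 1) (pX (D := D) (a := a) (b := b) (ht := ht) 1) (pY 1) := by
  let m0 : C(Eτ D a b ht 1, Conf (Option ι) X) :=
    ⟨fun w => (D.insK w.1.1.2.1).res some (Option.some_injective _),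
      (Conf.continuous_res _ _).comp (D.insK.continuous.comp (by fun_prop))⟩
  let m1 : C(Eτ D a b ht 1, Conf (Option ι) X) :=
    ⟨fun w => (D.insK w.1.1.2.2).res some (Option.some_injective _),
      (Conf.continuous_res _ _).comp (D.insK.continuous.comp (by fun_prop))⟩
  have h1 : CHtp (pV 1) (pX (D := D) (a := a) (b := b) (ht := ht) 1) m0 := by
    refine CHtp.mk' ⟨fun p => D.G (p.1, p.2.1.1.2.1), by fun_prop⟩ _ _ ?_ ?_ ?_
    · intro w
      exact D.G_zero _
    · intro w
      exact Subtype.ext (D.G_one _)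
    · intro t w w' hw
      obtain ⟨σ, h1, -⟩ := fib_one L w w' hw
      exact ⟨σ, D.G_perm t σ _ _ h1⟩
  have h2 : CHtp (pV 1) m0 m1 := by
    refine CHtp.mk' ⟨fun p => (pH 1 p).res some (Option.some_injective _),
      (Conf.continuous_res _ _).comp (pH 1).continuous⟩ _ _ ?_ ?_ ?_
    · intro w
      change (ht (0, lproj w.1)).res some (Option.some_injective _)
        = (D.insK w.1.1.2.1).res some (Option.some_injective _)
      rw [L.zero]
      rfl
    · intro w
      change (ht (1, lproj w.1)).res some (Option.some_injective _)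
        = (D.insK w.1.1.2.2).res some (Option.some_injective _)
      rw [w.2]
      rfl
    · intro t w w' hw
      obtain ⟨σ, h1, -⟩ := fib_one L w w' hw
      refine ⟨σ, ?_⟩
      change (ht (t, lproj w'.1)).1 ∘ some = ((ht (t, lproj w.1)).1 ∘ some) ∘ σ
      rw [L.perm t (lproj w.1) (lproj w'.1) σ hw h1]
      rfl
  have h3 : CHtp (pV 1) (pY (D := D) (a := a) (b := b) (ht := ht) 1) m1 := by
    refine CHtp.mk' ⟨fun p => D.G (p.1, p.2.1.1.2.2), by fun_prop⟩ _ _ ?_ ?_ ?_
    · intro w
      exact D.G_zero _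
    · intro w
      exact Subtype.ext (D.G_one _)
    · intro t w w' hw
      obtain ⟨σ, -, h1⟩ := fib_one L w w' hw
      exact ⟨σ, D.G_perm t σ _ _ h1⟩
  exact (h1.trans h2).trans h3.symm


lemma omap_inj {α β : Type} {f : α → β} (hf : Function.Injective f) :
    Function.Injective (Option.map f) := Option.map_injective hf

lemma chain_swap [DecidableEq ι] (L : LiftProps D (b := b) ht) :
    CHtp (pV (Equiv.swap none (some none)))
      (pX (D := D) (a := a) (b := b) (ht := ht) (Equiv.swap none (some none)))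
      (pY (Equiv.swap none (some none))) := by
  set τ : Equiv.Perm (Option (Option ι)) := Equiv.swap none (some none) with hτ
  have hτ1 : (τ : Option (Option ι) → Option (Option ι)) ∘ some = Option.map some := by
    funext i
    cases i with
    | none => simp [hτ]
    | some i =>
      simp only [Function.comp_apply, Option.map_some, hτ]
      exact Equiv.swap_apply_of_ne_of_ne (by simp) (by simp)
  have hτ2 : (τ : Option (Option ι) → Option (Option ι)) ∘ Option.map some = some := by
    funext i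
    cases i with
    | none => simp [hτ]
    | some i =>
      simp only [Function.comp_apply, Option.map_some, hτ]
      exact Equiv.swap_apply_of_ne_of_ne (by simp) (by simp)
  have hτ3 : ∀ i : ι, τ (some (some i)) = some (some i) := fun i => by
    rw [hτ]
    exact Equiv.swap_apply_of_ne_of_ne (by simp) (by simp)
  have inj1 : Function.Injective (some : Option ι → Option (Option ι)) := Option.some_injective _
  have inj0 : Function.Injective (some : ι → Option ι) := Option.some_injective _
  have injm : Function.Injective (Option.map some : Option ι → Option (Option ι)) := omap_inj inj0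
  have inj2 : Function.Injective (fun i : ι => (some (some i) : Option (Option ι))) :=
    fun i j h => by simpa using h
  let M := C(Eτ D a b ht τ, Conf (Option ι) X)
  -- basic continuous maps
  let x : C(Eτ D a b ht τ, Conf (Option ι) X) := pX τ
  let y : C(Eτ D a b ht τ, Conf (Option ι) X) := pY τ
  -- step 1 : x to insK x restricted
  let rs : C(Conf (Option (Option ι)) X, Conf (Option ι) X) := ⟨_, Conf.continuous_res some inj1⟩
  let rm : C(Conf (Option (Option ι)) X, Conf (Option ι) X) :=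
    ⟨_, Conf.continuous_res (Option.map some) injm⟩
  let r0 : C(Conf (Option ι) X, Conf ι X) := ⟨_, Conf.continuous_res some inj0⟩
  let r2 : C(Conf (Option (Option ι)) X, Conf ι X) := ⟨_, Conf.continuous_res _ inj2⟩
  have hG : ∀ z : C(Eτ D a b ht τ, Conf (Option ι) X),
      (∀ w w', pV τ w = pV τ w' → ∃ σ : Equiv.Perm ι, (z w').1 = (z w).1 ∘ Equiv.optionCongr σ) →
      CHtp (pV τ) z ((rs.comp D.insK).comp z) := by
    intro z hz
    refine CHtp.mk' ⟨fun p => D.G (p.1, z p.2), by fun_prop⟩ _ _ ?_ ?_ ?_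
    · intro w
      exact D.G_zero _
    · intro w
      exact Subtype.ext (D.G_one _)
    · intro t w w' hw
      obtain ⟨σ, h1⟩ := hz w w' hw
      exact ⟨_, D.G_perm t _ _ _ h1⟩
  have hQ : ∀ z : C(Eτ D a b ht τ, Conf (Option ι) X),
      (∀ w w', pV τ w = pV τ w' → ∃ σ : Equiv.Perm ι, (z w').1 = (z w).1 ∘ Equiv.optionCongr σ) →
      CHtp (pV τ) ((rm.comp D.insK).comp z) ((D.ins.comp r0).comp z) := by
    intro z hz
    refine CHtp.mk' ⟨fun p => D.Q (p.1, z p.2), by fun_prop⟩ _ _ ?_ ?_ ?_
    · intro w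
      exact Subtype.ext (D.Q_zero _)
    · intro w
      exact D.Q_one _
    · intro t w w' hw
      obtain ⟨σ, h1⟩ := hz w w' hw
      exact ⟨_, D.Q_perm t _ _ _ h1⟩
  have hGi : ∀ z : C(Eτ D a b ht τ, Conf (Option ι) X),
      (∀ w w', pV τ w = pV τ w' → ∃ σ : Equiv.Perm ι, (z w').1 = (z w).1 ∘ Equiv.optionCongr σ) →
      CHtp (pV τ) ((D.ins.comp r0).comp z) (((D.ins.comp r2).comp D.insK).comp z) := by
    intro z hz
    refine CHtp.mk' ⟨fun p => D.ins (r0 (D.G (p.1, z p.2))), by fun_prop⟩ _ _ ?_ ?_ ?_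
    · intro w
      change D.ins (r0 (D.G (0, z w))) = D.ins (r0 (z w))
      rw [D.G_zero]
    · intro w
      change D.ins (r0 (D.G (1, z w))) = D.ins (r2 (D.insK (z w)))
      congr 1
      apply Subtype.ext
      change (D.G (1, z w)).1 ∘ some = _
      rw [D.G_one]
      rfl
    · intro t w w' hw
      obtain ⟨σ, h1⟩ := hz w w' hw
      refine ⟨Equiv.optionCongr σ, ?_⟩
      refine D.ins_perm σ _ _ ?_
      change (D.G (t, z w')).1 ∘ some = ((D.G (t, z w)).1 ∘ some) ∘ σ
      rw [D.G_perm t _ _ _ h1]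
      rfl
  have hx : ∀ w w', pV τ w = pV τ w' →
      ∃ σ : Equiv.Perm ι, (x w').1 = (x w).1 ∘ Equiv.optionCongr σ := by
    intro w w' hw
    obtain ⟨σ, h, -⟩ := fib_swap L w w' hw
    exact ⟨σ, h⟩
  have hy : ∀ w w', pV τ w = pV τ w' →
      ∃ σ : Equiv.Perm ι, (y w').1 = (y w).1 ∘ Equiv.optionCongr σ := by
    intro w w' hw
    obtain ⟨σ, -, h⟩ := fib_swap L w w' hw
    exact ⟨σ, h⟩
  let hh : C(unitInterval × Eτ D a b ht τ, Conf (Option (Option ι)) X) := pH τ
  have hperm : ∀ t w w', pV τ w = pV τ w' → ∃ σ : Equiv.Perm ι,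
      (hh (t, w')).1 = (hh (t, w)).1 ∘ Equiv.optionCongr (Equiv.optionCongr σ) := by
    intro t w w' hw
    obtain ⟨σ, h, -⟩ := fib_swap L w w' hw
    exact ⟨σ, L.perm t (lproj w.1) (lproj w'.1) _ hw h⟩
  have hH0 : ∀ w, hh (0, w) = D.insK (x w) := fun w => L.zero (lproj w.1)
  have hH1 : ∀ w, (hh (1, w)).1 = (D.insK (y w)).1 ∘ τ := fun w => by
    change (ht (1, lproj w.1)).1 = _
    rw [w.2]
    rfl
  -- strand deletions
  have d1 : CHtp (pV τ) ((rs.comp D.insK).comp x) ((rm.comp D.insK).comp y) := by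
    refine CHtp.mk' (rs.comp (hh)) _ _ ?_ ?_ ?_
    · intro w
      change rs (hh (0, w)) = rs (D.insK (x w))
      rw [hH0]
    · intro w
      apply Subtype.ext
      change (hh (1, w)).1 ∘ some = (D.insK (y w)).1 ∘ Option.map some
      rw [hH1, Function.comp_assoc, hτ1]
    · intro t w w' hw
      obtain ⟨σ, h⟩ := hperm t w w' hw
      refine ⟨Equiv.optionCongr σ, ?_⟩
      change (hh (t, w')).1 ∘ some = ((hh (t, w)).1 ∘ some) ∘ _
      rw [h]
      rfl
  have d2 : CHtp (pV τ) ((rm.comp D.insK).comp x) ((rs.comp D.insK).comp y) := by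
    refine CHtp.mk' (rm.comp (hh)) _ _ ?_ ?_ ?_
    · intro w
      change rm (hh (0, w)) = rm (D.insK (x w))
      rw [hH0]
    · intro w
      apply Subtype.ext
      change (hh (1, w)).1 ∘ Option.map some = (D.insK (y w)).1 ∘ some
      rw [hH1, Function.comp_assoc, hτ2]
    · intro t w w' hw
      obtain ⟨σ, h⟩ := hperm t w w' hw
      refine ⟨Equiv.optionCongr σ, ?_⟩
      change (hh (t, w')).1 ∘ Option.map some = ((hh (t, w)).1 ∘ Option.map some) ∘ _
      rw [h]
      funext i
      cases i <;> rfl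
  have d3 : CHtp (pV τ) (((D.ins.comp r2).comp D.insK).comp x)
      (((D.ins.comp r2).comp D.insK).comp y) := by
    refine CHtp.mk' ((D.ins.comp r2).comp (hh)) _ _ ?_ ?_ ?_
    · intro w
      change D.ins (r2 (hh (0, w))) = D.ins (r2 (D.insK (x w)))
      rw [hH0]
    · intro w
      change D.ins (r2 (hh (1, w))) = D.ins (r2 (D.insK (y w)))
      congr 1
      apply Subtype.ext
      funext i
      change (hh (1, w)).1 (some (some i)) = (D.insK (y w)).1 (some (some i))
      rw [hH1]
      change (D.insK (y w)).1 (τ (some (some i))) = _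
      rw [hτ3]
    · intro t w w' hw
      obtain ⟨σ, h⟩ := hperm t w w' hw
      refine ⟨Equiv.optionCongr σ, ?_⟩
      refine D.ins_perm σ _ _ ?_
      funext i
      change (hh (t, w')).1 (some (some i)) = (hh (t, w)).1 (some (some (σ i)))
      rw [h]
      rfl
  exact (hG x hx).trans (d1.trans ((hQ y hy).trans ((hGi y hy).trans (d3.symm.trans
    ((hGi x hx).symm.trans ((hQ x hx).symm.trans (d2.trans (hG y hy).symm)))))))

end

section

variable {ι X : Type} [TopologicalSpace X] [Finite ι] [T2Space X]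

/-- Adding a point by means of insertion data is a homotopy monomorphism. -/
theorem InsData.hmono (D : InsData ι X) : HMono D.F := by
  classical
  rintro V _ a b ⟨H⟩
  obtain ⟨ht, hu, h0, hp⟩ := lift_exists D a b H
  have L : LiftProps D (b := b) ht := by
    refine ⟨fun w => ?_, h0, hp⟩
    rw [hu, H.apply_one]
    change D.F (b w.1.1) = _
    rw [← w.2.2]
    rfl
  let τ : Bool → Equiv.Perm (Option (Option ι)) := fun j =>
    if j then 1 else Equiv.swap none (some none)
  obtain ⟨F1⟩ := chain_one L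
  obtain ⟨F2⟩ := chain_swap L
  let G : ∀ j : Bool, unitInterval × Eτ D a b ht (τ j) → UConf (Option ι) X := fun j =>
    match j with
    | true => fun p => uc (F1 p)
    | false => fun p => uc (F2 p)
  obtain ⟨G', hG'⟩ := descend (fun j : Bool => Eτ D a b ht (τ j)) (fun j => pV (τ j))
    (fun j => isOpenMap_Eτ D ht (τ j) L.uc_one)
    (fun v => by
      rcases cover_cases L v with ⟨w, hw⟩ | ⟨w, hw⟩
      · exact ⟨true, w, hw⟩
      · exact ⟨false, w, hw⟩) G
    (fun j => by
      cases j
      · exact continuous_uc.comp F2.continuous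
      · exact continuous_uc.comp F1.continuous)
    (fun j j' w w' t h => by
      cases j <;> cases j'
      · exact F2.prop t w w' h
      · exact absurd h.symm (cover_disj L w' w)
      · exact absurd h (cover_disj L w w')
      · exact F1.prop t w w' h)
  refine ⟨⟨G', fun v => ?_, fun v => ?_⟩⟩
  · rcases cover_cases L v with ⟨w, hw⟩ | ⟨w, hw⟩
    · have h1 := hG' true 0 w
      have h2 : pV (τ true) w = v := hw
      rw [h2] at h1
      change G' (0, v) = _
      rw [h1]
      change uc (F1 (0, w)) = _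
      rw [F1.apply_zero]
      change uc w.1.1.2.1 = _
      rw [w.1.2.1, hw]
    · have h1 := hG' false 0 w
      have h2 : pV (τ false) w = v := hw
      rw [h2] at h1
      change G' (0, v) = _
      rw [h1]
      change uc (F2 (0, w)) = _
      rw [F2.apply_zero]
      change uc w.1.1.2.1 = _
      rw [w.1.2.1, hw]
  · rcases cover_cases L v with ⟨w, hw⟩ | ⟨w, hw⟩
    · have h1 := hG' true 1 w
      have h2 : pV (τ true) w = v := hw
      rw [h2] at h1
      change G' (1, v) = _
      rw [h1]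
      change uc (F1 (1, w)) = _
      rw [F1.apply_one]
      change uc w.1.1.2.2 = _
      rw [w.1.2.2, hw]
    · have h1 := hG' false 1 w
      have h2 : pV (τ false) w = v := hw
      rw [h2] at h1
      change G' (1, v) = _
      rw [h1]
      change uc (F2 (1, w)) = _
      rw [F2.apply_one]
      change uc w.1.1.2.2 = _
      rw [w.1.2.2, hw]

end

end Pool.Agent.Helper93
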